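import Pool.Agent.Work.MP_21c964_co.Formula

set_option autoImplicit false

namespace Pool.Agent.Work.MP_21c964_co

open Finset Filter Topology

lemma sqrt3_sq : √3 * √3 = (3 : ℝ) := Real.mul_self_sqrt (by norm_num)

lemma sqrt3_bounds : (1.7 : ℝ) < √3 ∧ √3 < 1.8 := by
  constructor
  · rw [Real.lt_sqrt (by norm_num)]; norm_num
  · rw [Real.sqrt_lt' (by norm_num)]; norm_num

/-- The cubic inequality. -/
lemma cubic_le {a n : ℝ} (ha : 0 ≤ a) (han : a ≤ n) :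
    a * (n - a) ^ 2 / 4 - a ^ 3 / 6 ≤ (3 * √3 - 5) / 6 * n ^ 3 := by
  have h3 := sqrt3_sq
  have hb := sqrt3_bounds
  have key : 12 * ((3 * √3 - 5) / 6 * n ^ 3 - (a * (n - a) ^ 2 / 4 - a ^ 3 / 6)) =
      (a - (2 - √3) * n) ^ 2 * ((2 + 2 * √3) * n - a) := by
    have e : ∀ s : ℝ, s * s = 3 →
        12 * ((3 * s - 5) / 6 * n ^ 3 - (a * (n - a) ^ 2 / 4 - a ^ 3 / 6)) =
      (a - (2 - s) * n) ^ 2 * ((2 + 2 * s) * n - a) := by
      intro s hs
      linear_combination (-(3 * a * n ^ 2) - n ^ 3 * (2 * s - 6)) * hs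
    exact e _ h3
  have h4 : 0 ≤ (a - (2 - √3) * n) ^ 2 * ((2 + 2 * √3) * n - a) := by
    apply mul_nonneg (sq_nonneg _)
    nlinarith
  linarith

lemma formula_le (n : ℕ) : (formula n : ℝ) ≤ (3 * √3 - 5) / 6 * (n : ℝ) ^ 3 := by
  have hb := sqrt3_bounds
  obtain ⟨a, ha, hfa⟩ := Finset.exists_mem_eq_sup (Finset.range (n / 3 + 1))
    ⟨0, by simp⟩ (fun a => a * ((n - a) ^ 2 / 4) - (a + 2).choose 3)
  rw [Finset.mem_range] at ha
  have h1 : formula n = a * ((n - a) ^ 2 / 4) - (a + 2).choose 3 := hfa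
  rw [h1]
  have han : a ≤ n := by omega
  have h6 := six_choose a
  have h6' : (6 : ℝ) * ((a + 2).choose 3 : ℝ) = a * (a + 1) * (a + 2) := by exact_mod_cast h6
  have hV : ((a * ((n - a) ^ 2 / 4) : ℕ) : ℝ) ≤ a * ((n : ℝ) - a) ^ 2 / 4 := by
    have : (((n - a) ^ 2 / 4 : ℕ) : ℝ) ≤ ((n : ℝ) - a) ^ 2 / 4 := by
      have := @Nat.cast_div_le ℝ _ _ _ ((n - a) ^ 2) 4
      refine le_trans this ?_
      push_cast [Nat.cast_sub han]
      exact le_rfl
    push_cast at this ⊢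
    have ha0 : (0 : ℝ) ≤ a := by positivity
    have := mul_le_mul_of_nonneg_left this ha0
    linarith
  have ha0 : (0 : ℝ) ≤ a := by positivity
  have hcub := cubic_le ha0 (show (a : ℝ) ≤ n by exact_mod_cast han)
  rcases le_total ((a + 2).choose 3) (a * ((n - a) ^ 2 / 4)) with h | h
  · rw [Nat.cast_sub h]
    have : (a : ℝ) ^ 3 ≤ a * (a + 1) * (a + 2) := by nlinarith [mul_nonneg ha0 ha0]
    linarith
  · rw [Nat.sub_eq_zero_of_le h]
    have : (0 : ℝ) ≤ (3 * √3 - 5) / 6 * (n : ℝ) ^ 3 := by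
      apply mul_nonneg
      · linarith
      · positivity
    simpa using this

lemma formula_lower {n a : ℕ} (ha : 3 * a ≤ n) :
    (a : ℝ) * (((n : ℝ) - a) ^ 2 - 3) / 4 - a * (a + 1) * (a + 2) / 6 ≤ formula n := by
  have h := formula_ge ha
  have han : a ≤ n := by omega
  have h6 := six_choose a
  have h6' : (6 : ℝ) * ((a + 2).choose 3 : ℝ) = a * (a + 1) * (a + 2) := by exact_mod_cast h6
  have h' : a * ((n - a) ^ 2 / 4) ≤ formula n + (a + 2).choose 3 := by omega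
  have h'' : (a : ℝ) * (((n - a) ^ 2 / 4 : ℕ) : ℝ) ≤ formula n + ((a + 2).choose 3 : ℝ) := by
    exact_mod_cast h'
  have hd : (n - a) ^ 2 ≤ 4 * ((n - a) ^ 2 / 4) + 3 := by omega
  have hd' : ((n : ℝ) - a) ^ 2 ≤ 4 * (((n - a) ^ 2 / 4 : ℕ) : ℝ) + 3 := by
    have : (((n - a) ^ 2 : ℕ) : ℝ) ≤ ((4 * ((n - a) ^ 2 / 4) + 3 : ℕ) : ℝ) := by
      exact_mod_cast hd
    rw [Nat.cast_pow, Nat.cast_sub han] at this
    refine le_trans this ?_
    push_cast
    exact le_rfl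
  have ha0 : (0 : ℝ) ≤ a := by positivity
  have := mul_le_mul_of_nonneg_left hd' ha0
  linarith

theorem tendsto_formula :
    Tendsto (fun n : ℕ => (formula n : ℝ) / (n : ℝ) ^ 3) atTop (𝓝 ((3 * √3 - 5) / 6)) := by
  have hb := sqrt3_bounds
  have hs := sqrt3_sq
  set x0 : ℝ := 2 - √3 with hx0
  have hx0pos : 0 ≤ x0 := by linarith
  have hx03 : 3 * x0 ≤ 1 := by linarith
  set u : ℕ → ℝ := fun n => (⌊x0 * (n : ℝ)⌋₊ : ℝ) / n with hu
  have hulim : Tendsto u atTop (𝓝 x0) :=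
    (tendsto_nat_floor_mul_div_atTop hx0pos).comp tendsto_natCast_atTop_atTop
  have hinv : Tendsto (fun n : ℕ => 1 / (n : ℝ)) atTop (𝓝 0) := tendsto_one_div_atTop_nhds_zero_nat
  have hg : Tendsto (fun n : ℕ => u n * ((1 - u n) ^ 2 - 3 * (1 / (n : ℝ)) ^ 2) / 4 -
      u n * (u n + 1 / (n : ℝ)) * (u n + 2 * (1 / (n : ℝ))) / 6) atTop
      (𝓝 (x0 * ((1 - x0) ^ 2 - 3 * (0 : ℝ) ^ 2) / 4 - x0 * (x0 + 0) * (x0 + 2 * 0) / 6)) := by
    apply Tendsto.sub
    · apply Tendsto.div_const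
      apply hulim.mul
      exact ((tendsto_const_nhds.sub hulim).pow 2).sub ((hinv.pow 2).const_mul 3)
    · apply Tendsto.div_const
      exact (hulim.mul (hulim.add hinv)).mul (hulim.add (hinv.const_mul 2))
  have hval : x0 * ((1 - x0) ^ 2 - 3 * (0 : ℝ) ^ 2) / 4 - x0 * (x0 + 0) * (x0 + 2 * 0) / 6 =
      (3 * √3 - 5) / 6 := by
    rw [hx0]
    have e : ∀ s : ℝ, s * s = 3 → (2 - s) * ((1 - (2 - s)) ^ 2 - 3 * (0 : ℝ) ^ 2) / 4 -
        (2 - s) * ((2 - s) + 0) * ((2 - s) + 2 * 0) / 6 = (3 * s - 5) / 6 := by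
      intro s hs
      linear_combination (-(1 : ℝ) / 12 * s) * hs
    exact e _ hs
  rw [hval] at hg
  refine tendsto_of_tendsto_of_tendsto_of_le_of_le' hg tendsto_const_nhds ?_ ?_
  · filter_upwards [eventually_ge_atTop 1] with n hn
    have hn0 : (0 : ℝ) < n := by exact_mod_cast hn
    set a := ⌊x0 * (n : ℝ)⌋₊ with ha
    have ha3 : 3 * a ≤ n := by
      have h1 : (a : ℝ) ≤ x0 * n := Nat.floor_le (by positivity)
      have h2 : (3 : ℝ) * a ≤ n := by nlinarith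
      exact_mod_cast h2
    have hl := formula_lower ha3
    rw [le_div_iff₀ (by positivity)]
    refine le_trans (le_of_eq ?_) hl
    have hua : u n = (a : ℝ) / n := rfl
    rw [hua]
    field_simp
  · filter_upwards [eventually_ge_atTop 1] with n hn
    have hn0 : (0 : ℝ) < n := by exact_mod_cast hn
    rw [div_le_iff₀ (by positivity)]
    exact formula_le n

end Pool.Agent.Work.MP_21c964_co
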