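import Pool.Agent.Work.MP_21c964_co.Numeric

set_option autoImplicit false

namespace Pool.Agent.Work.MP_21c964_co

open Finset

/-- Two-colour lemma for sums: if `A` and `X` partition `[l,h]`, with `|A| ≥ p` and
`|X| ≥ 2p-1`, then at least `p(p+1)/2` pairs `(a,x)` satisfy `a + x ≥ l + h`. -/
lemma sum_pairs (d : ℕ) : ∀ (l h p : ℕ) (A X : Finset ℕ), h + 1 = l + d →
    (∀ x, (x ∈ A ∨ x ∈ X) ↔ (l ≤ x ∧ x ≤ h)) → (∀ x ∈ A, x ∉ X) → p ≤ A.card →
    2 * p ≤ X.card + 1 →
    p * (p + 1) ≤ 2 * ((A ×ˢ X).filter (fun t => l + h ≤ t.1 + t.2)).card := by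
  induction d using Nat.strong_induction_on with
  | _ d ih =>
  intro l h p A X hd hcov hdis hA hX
  rcases Nat.eq_zero_or_pos p with hp0 | hp
  · subst hp0; simp
  -- both sets are nonempty, so `l < h`
  obtain ⟨a0, ha0⟩ : A.Nonempty := Finset.card_pos.mp (by omega)
  obtain ⟨x0, hx0⟩ : X.Nonempty := Finset.card_pos.mp (by omega)
  have h1 := (hcov a0).1 (Or.inl ha0)
  have h2 := (hcov x0).1 (Or.inr hx0)
  have hne : a0 ≠ x0 := fun e => hdis a0 ha0 (e ▸ hx0)
  have hlh : l < h := by omega
  set A' := (A.erase l).erase h with hA'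
  set X' := (X.erase l).erase h with hX'
  have hcov' : ∀ x, (x ∈ A' ∨ x ∈ X') ↔ (l + 1 ≤ x ∧ x ≤ h - 1) := by
    intro x
    simp only [hA', hX', Finset.mem_erase]
    have := hcov x
    constructor
    · rintro (⟨q1, q2, q3⟩ | ⟨q1, q2, q3⟩)
      · have := this.1 (Or.inl q3); omega
      · have := this.1 (Or.inr q3); omega
    · rintro ⟨q1, q2⟩
      rcases this.2 ⟨by omega, by omega⟩ with q3 | q3
      · left; exact ⟨by omega, by omega, q3⟩
      · right; exact ⟨by omega, by omega, q3⟩
  have hdis' : ∀ x ∈ A', x ∉ X' := by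
    intro x hx hx'
    simp only [hA', hX', Finset.mem_erase] at hx hx'
    exact hdis x hx.2.2 hx'.2.2
  have hsub : ((A' ×ˢ X').filter (fun t => l + 1 + (h - 1) ≤ t.1 + t.2)) ⊆
      ((A ×ˢ X).filter (fun t => l + h ≤ t.1 + t.2)) := by
    intro t ht
    simp only [hA', hX', Finset.mem_filter, Finset.mem_product, Finset.mem_erase] at ht ⊢
    exact ⟨⟨ht.1.1.2.2, ht.1.2.2.2⟩, by omega⟩
  have key := fun p' (q1 : p' ≤ A'.card) (q2 : 2 * p' ≤ X'.card + 1) =>
    ih (d - 2) (by omega) (l + 1) (h - 1) p' A' X' (by omega) hcov' hdis' q1 q2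
  rcases (hcov h).2 ⟨by omega, le_rfl⟩ with hh | hh
  · -- `h ∈ A`
    have hhX : h ∉ X := hdis h hh
    have hcount : ((A' ×ˢ X').filter (fun t => l + 1 + (h - 1) ≤ t.1 + t.2)).card + X.card ≤
        ((A ×ˢ X).filter (fun t => l + h ≤ t.1 + t.2)).card := by
      have e : (({h} : Finset ℕ) ×ˢ X).card = X.card := by simp
      rw [← e, ← Finset.card_union_of_disjoint]
      · apply Finset.card_le_card
        apply Finset.union_subset hsub
        intro t ht
        simp only [Finset.mem_product, Finset.mem_singleton, Finset.mem_filter] at ht ⊢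
        have := (hcov t.2).1 (Or.inr ht.2)
        exact ⟨⟨ht.1 ▸ hh, ht.2⟩, by omega⟩
      · rw [Finset.disjoint_left]
        intro t ht ht'
        simp only [hA', hX', Finset.mem_filter, Finset.mem_product, Finset.mem_erase,
          Finset.mem_singleton] at ht ht'
        exact ht.1.1.1 ht'.1
    rcases (hcov l).2 ⟨le_rfl, by omega⟩ with hl | hl
    · have hlX : l ∉ X := hdis l hl
      have c1 : A'.card = A.card - 2 := by
        rw [hA', Finset.card_erase_of_mem, Finset.card_erase_of_mem hl]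
        · omega
        · rw [Finset.mem_erase]; exact ⟨by omega, hh⟩
      have c2 : X'.card = X.card := by
        rw [hX', Finset.erase_eq_of_notMem, Finset.erase_eq_of_notMem hlX]
        rw [Finset.mem_erase]; exact fun q => hhX q.2
      have := key (p - 2) (by omega) (by omega)
      rcases Nat.lt_or_ge p 2 with hp2 | hp2
      · have : p = 1 := by omega
        subst this
        omega
      · obtain ⟨m, rfl⟩ : ∃ m, p = m + 2 := ⟨p - 2, by omega⟩
        have e : m + 2 - 2 = m := by omega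
        rw [e] at this
        nlinarith
    · have hlA : l ∉ A := fun q => hdis l q hl
      have c1 : A'.card = A.card - 1 := by
        rw [hA', Finset.card_erase_of_mem, Finset.erase_eq_of_notMem hlA]
        rw [Finset.mem_erase]; exact ⟨by omega, hh⟩
      have c2 : X'.card = X.card - 1 := by
        rw [hX', Finset.erase_eq_of_notMem, Finset.card_erase_of_mem hl]
        rw [Finset.mem_erase]; exact fun q => hhX q.2
      have := key (p - 1) (by omega) (by omega)
      obtain ⟨m, rfl⟩ : ∃ m, p = m + 1 := ⟨p - 1, by omega⟩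
      have e : m + 1 - 1 = m := by omega
      rw [e] at this
      nlinarith
  · -- `h ∈ X`
    have hhA : h ∉ A := fun q => hdis h q hh
    have hcount : ((A' ×ˢ X').filter (fun t => l + 1 + (h - 1) ≤ t.1 + t.2)).card + A.card ≤
        ((A ×ˢ X).filter (fun t => l + h ≤ t.1 + t.2)).card := by
      have e : (A ×ˢ ({h} : Finset ℕ)).card = A.card := by simp
      rw [← e, ← Finset.card_union_of_disjoint]
      · apply Finset.card_le_card
        apply Finset.union_subset hsub
        intro t ht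
        simp only [Finset.mem_product, Finset.mem_singleton, Finset.mem_filter] at ht ⊢
        have := (hcov t.1).1 (Or.inl ht.1)
        exact ⟨⟨ht.1, ht.2 ▸ hh⟩, by omega⟩
      · rw [Finset.disjoint_left]
        intro t ht ht'
        simp only [hA', hX', Finset.mem_filter, Finset.mem_product, Finset.mem_erase,
          Finset.mem_singleton] at ht ht'
        exact ht.1.2.1 ht'.2
    have c1 : A.card - 1 ≤ A'.card := by
      rw [hA', Finset.erase_eq_of_notMem (a := h)]
      · exact Finset.pred_card_le_card_erase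
      · rw [Finset.mem_erase]; exact fun q => hhA q.2
    have c2 : X.card - 2 ≤ X'.card := by
      have e1 : X.card - 1 ≤ (X.erase l).card := Finset.pred_card_le_card_erase
      have e2 : (X.erase l).card - 1 ≤ X'.card :=
        Finset.pred_card_le_card_erase
      omega
    have := key (p - 1) (by omega) (by omega)
    obtain ⟨m, rfl⟩ : ∃ m, p = m + 1 := ⟨p - 1, by omega⟩
    have e : m + 1 - 1 = m := by omega
    rw [e] at this
    nlinarith

/-- `A`, `B`, `C` partition `[1,n]`. -/
structure Part (n : ℕ) (A B C : Finset ℕ) : Prop where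
  cov : ∀ x, (x ∈ A ∨ x ∈ B ∨ x ∈ C) ↔ (1 ≤ x ∧ x ≤ n)
  ab : ∀ x ∈ A, x ∉ B
  ac : ∀ x ∈ A, x ∉ C
  bc : ∀ x ∈ B, x ∉ C

/-- Number of elements `≤ t`. -/
def cnt (S : Finset ℕ) (t : ℕ) : ℕ := (S.filter (fun x => x ≤ t)).card

lemma cnt_le_card (S : Finset ℕ) (t : ℕ) : cnt S t ≤ S.card := Finset.card_filter_le _ _

lemma cnt_mono (S : Finset ℕ) {t s : ℕ} (h : t ≤ s) : cnt S t ≤ cnt S s := by
  unfold cnt
  apply Finset.card_le_card
  intro x hx
  simp only [Finset.mem_filter] at hx ⊢
  exact ⟨hx.1, by omega⟩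

lemma cnt_add (S : Finset ℕ) (t : ℕ) :
    cnt S t + (S.filter (fun x => t < x)).card = S.card := by
  unfold cnt
  rw [← Finset.card_filter_add_card_filter_not (s := S) (fun x => x ≤ t)]
  simp only [not_le]

lemma cnt_sum {n : ℕ} {A B C : Finset ℕ} (h : Part n A B C) {t : ℕ} (ht : t ≤ n) :
    cnt A t + cnt B t + cnt C t = t := by
  have e : Finset.Icc 1 t = (A.filter (fun x => x ≤ t) ∪ B.filter (fun x => x ≤ t)) ∪
      C.filter (fun x => x ≤ t) := by
    ext x
    simp only [Finset.mem_Icc, Finset.mem_union, Finset.mem_filter]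
    have := h.cov x
    constructor
    · rintro ⟨h1, h2⟩
      rcases this.2 ⟨h1, by omega⟩ with q | q | q
      · exact Or.inl (Or.inl ⟨q, h2⟩)
      · exact Or.inl (Or.inr ⟨q, h2⟩)
      · exact Or.inr ⟨q, h2⟩
    · rintro ((⟨h1, h2⟩ | ⟨h1, h2⟩) | ⟨h1, h2⟩)
      · exact ⟨(this.1 (Or.inl h1)).1, h2⟩
      · exact ⟨(this.1 (Or.inr (Or.inl h1))).1, h2⟩
      · exact ⟨(this.1 (Or.inr (Or.inr h1))).1, h2⟩
  have hc : (Finset.Icc 1 t).card = t := by simp
  rw [e, Finset.card_union_of_disjoint, Finset.card_union_of_disjoint] at hc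
  · exact hc
  · rw [Finset.disjoint_left]
    intro x hx hx'
    simp only [Finset.mem_filter] at hx hx'
    exact h.ab x hx.1 hx'.1
  · rw [Finset.disjoint_left]
    intro x hx hx'
    simp only [Finset.mem_union, Finset.mem_filter] at hx hx'
    rcases hx with hx | hx
    · exact h.ac x hx.1 hx'.1
    · exact h.bc x hx.1 hx'.1

lemma cnt_eq_card {n : ℕ} {S : Finset ℕ} (h : ∀ x ∈ S, x ≤ n) : cnt S n = S.card := by
  unfold cnt
  rw [Finset.filter_true_of_mem h]

lemma card_sum {n : ℕ} {A B C : Finset ℕ} (h : Part n A B C) :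
    A.card + B.card + C.card = n := by
  have := cnt_sum h (le_refl n)
  rw [cnt_eq_card, cnt_eq_card, cnt_eq_card] at this
  · exact this
  · intro x hx; exact ((h.cov x).1 (Or.inr (Or.inr hx))).2
  · intro x hx; exact ((h.cov x).1 (Or.inr (Or.inl hx))).2
  · intro x hx; exact ((h.cov x).1 (Or.inl hx)).2

end Pool.Agent.Work.MP_21c964_co
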