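import Mathlib

set_option autoImplicit false

namespace Pool.Agent.Work.MP_21c964_co

/-- The rainbow solutions `(x, y, z)` of `x + y < z` with `x ≤ y` in `[1, n]` under the
3-colouring `χ` (only the values of `χ` on `[1, n]` matter). -/
def rainbowSolutions (n : ℕ) (χ : ℕ → Fin 3) : Finset (ℕ × ℕ × ℕ) :=
  (Finset.Icc 1 n ×ˢ Finset.Icc 1 n ×ˢ Finset.Icc 1 n).filter fun t =>
    t.1 ≤ t.2.1 ∧ t.1 + t.2.1 < t.2.2 ∧
      χ t.1 ≠ χ t.2.1 ∧ χ t.1 ≠ χ t.2.2 ∧ χ t.2.1 ≠ χ t.2.2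

/-- `RM3 n` is the largest number of rainbow solutions of `x + y < z` in `[1, n]`, over all
3-colourings of `[1, n]`. -/
noncomputable def RM3 (n : ℕ) : ℕ :=
  sSup {N : ℕ | ∃ χ : ℕ → Fin 3, N = (rainbowSolutions n χ).card}

end Pool.Agent.Work.MP_21c964_co
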