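import Pool.Agent.Work.MP_21c964_co.Step

set_option autoImplicit false

namespace Pool.Agent.Work.MP_21c964_co

open Finset

lemma Part.swap12 {n : ℕ} {A B C : Finset ℕ} (h : Part n A B C) : Part n B A C :=
  ⟨fun x => by rw [← h.cov x]; tauto, fun x hx hx' => h.ab x hx' hx, h.bc, h.ac⟩

lemma Part.swap23 {n : ℕ} {A B C : Finset ℕ} (h : Part n A B C) : Part n A C B :=
  ⟨fun x => by rw [← h.cov x]; tauto, h.ac, h.ab, fun x hx hx' => h.bc x hx' hx⟩

lemma tri_swap12 (A B C : Finset ℕ) : (tri A B C).card = (tri B A C).card := by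
  apply Finset.card_bij (fun t _ => (t.2.1, t.1, t.2.2))
  · intro t ht
    rw [mem_tri] at ht ⊢
    simp only
    refine ⟨⟨ht.1.2.1, ht.1.1, ht.1.2.2⟩, ?_, ?_, ?_⟩ <;> omega
  · intro t _ s _ hts
    simp only [Prod.mk.injEq] at hts
    exact Prod.ext hts.2.1 (Prod.ext hts.1 hts.2.2)
  · intro t ht
    rw [mem_tri] at ht
    refine ⟨(t.2.1, t.1, t.2.2), ?_, rfl⟩
    rw [mem_tri]
    simp only
    refine ⟨⟨ht.1.2.1, ht.1.1, ht.1.2.2⟩, ?_, ?_, ?_⟩ <;> omega

lemma tri_swap23 (A B C : Finset ℕ) : (tri A B C).card = (tri A C B).card := by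
  apply Finset.card_bij (fun t _ => (t.1, t.2.2, t.2.1))
  · intro t ht
    rw [mem_tri] at ht ⊢
    simp only
    refine ⟨⟨ht.1.1, ht.1.2.2, ht.1.2.1⟩, ?_, ?_, ?_⟩ <;> omega
  · intro t _ s _ hts
    simp only [Prod.mk.injEq] at hts
    exact Prod.ext hts.1 (Prod.ext hts.2.2 hts.2.1)
  · intro t ht
    rw [mem_tri] at ht
    refine ⟨(t.1, t.2.2, t.2.1), ?_, rfl⟩
    rw [mem_tri]
    simp only
    refine ⟨⟨ht.1.1, ht.1.2.2, ht.1.2.1⟩, ?_, ?_, ?_⟩ <;> omega

/-- The statement proved by induction. -/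
def Bound (m : ℕ) : Prop := ∀ (A B C : Finset ℕ) (k : ℕ), Part m A B C → k ≤ A.card →
  k ≤ B.card → k ≤ C.card → k * (k + 1) * (k + 2) ≤ 6 * (tri A B C).card

lemma bound_unbalanced {n : ℕ} (ih : ∀ m < n, Bound m) {A B C : Finset ℕ} {k : ℕ}
    (h : Part n A B C) (hA : k < A.card) (hB : k ≤ B.card) (hC : k ≤ C.card) :
    k * (k + 1) * (k + 2) ≤ 6 * (tri A B C).card := by
  have hne : A.Nonempty := Finset.card_pos.mp (by omega)
  have hp := A.min'_mem hne
  have hmin : ∀ a ∈ A, A.min' hne ≤ a := fun a ha => A.min'_le a ha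
  set p := A.min' hne with hpdef
  have hp1 := (h.cov p).1 (Or.inl hp)
  have hpB : p ∉ B := h.ab p hp
  have hpC : p ∉ C := h.ac p hp
  have h1 := card_del_of_mem hp
  have h2 := card_del_of_notMem hpB
  have h3 := card_del_of_notMem hpC
  have := ih (n - 1) (by omega) (del p A) (del p B) (del p C) k (part_del h hp1.1 hp1.2)
    (by omega) (by omega) (by omega)
  have := tri_del_first h hp hmin
  omega

lemma bound_balanced' {n : ℕ} (ih : ∀ m < n, Bound m) {A B C : Finset ℕ} {k : ℕ} (hk : 1 ≤ k)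
    (h : Part n A B C) (hA : A.card = k) (hB : B.card = k) (hC : C.card = k) (h1 : 1 ∈ A)
    {q r : ℕ} (hq : q ∈ B) (hqm : ∀ b ∈ B, b ≤ q) (hr : r ∈ C) (hrm : ∀ c ∈ C, c ≤ r)
    (hqr : q < r) :
    k * (k + 1) * (k + 2) ≤ 6 * (tri A B C).card := by
  have hn := card_sum h
  have hq1 : 1 ≤ q := ((h.cov q).1 (Or.inr (Or.inl hq))).1
  have hrn : r ≤ n := ((h.cov r).1 (Or.inr (Or.inr hr))).2
  have h1B : 1 ∉ B := h.ab 1 h1
  have h1C : 1 ∉ C := h.ac 1 h1
  have hqA : q ∉ A := fun e => h.ab q e hq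
  have hrA : r ∉ A := fun e => h.ac r e hr
  have hqC : q ∉ C := fun e => h.bc q hq e
  have hrB : r ∉ B := fun e => h.bc r e hr
  have hq1' : q ≠ 1 := fun e => hqA (e ▸ h1)
  have hr1' : r ≠ 1 := fun e => hrA (e ▸ h1)
  have P1 := part_del h (show 1 ≤ r by omega) hrn
  have P2 := part_del P1 hq1 (show q ≤ n - 1 by omega)
  have P3 := part_del P2 (le_refl 1) (show 1 ≤ n - 1 - 1 by omega)
  -- memberships
  have i1 : iota r q = q := by unfold iota; split_ifs <;> omega
  have i2 : iota q 1 = 1 := by unfold iota; split_ifs <;> omega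
  have i3 : iota r 1 = 1 := by unfold iota; split_ifs <;> omega
  have a1 : (del r A).card = k := by rw [card_del_of_notMem hrA, hA]
  have a2 : (del q (del r A)).card = k := by
    rw [card_del_of_notMem, a1]
    rw [mem_del, i1]; exact hqA
  have a3 : (del 1 (del q (del r A))).card + 1 = k := by
    rw [card_del_of_mem, a2]
    rw [mem_del, i2, mem_del, i3]; exact h1
  have b1 : (del r B).card = k := by rw [card_del_of_notMem hrB, hB]
  have b2 : (del q (del r B)).card + 1 = k := by
    rw [card_del_of_mem, b1]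
    rw [mem_del, i1]; exact hq
  have b3 : (del 1 (del q (del r B))).card + 1 = k := by
    rw [card_del_of_notMem, b2]
    rw [mem_del, i2, mem_del, i3]; exact h1B
  have c1 : (del r C).card + 1 = k := by rw [card_del_of_mem hr, hC]
  have c2 : (del q (del r C)).card + 1 = k := by
    rw [card_del_of_notMem, c1]
    rw [mem_del, i1]; exact hqC
  have c3 : (del 1 (del q (del r C))).card + 1 = k := by
    rw [card_del_of_notMem, c2]
    rw [mem_del, i2, mem_del, i3]; exact h1C
  obtain ⟨j, rfl⟩ : ∃ j, k = j + 1 := ⟨k - 1, by omega⟩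
  have hI := ih (n - 1 - 1 - 1) (by omega) _ _ _ j P3 (by omega) (by omega) (by omega)
  have hS := step h hA hB hC hq hqm hr hrm hqr
  nlinarith

lemma bound_balanced {n : ℕ} (ih : ∀ m < n, Bound m) {A B C : Finset ℕ} {k : ℕ} (hk : 1 ≤ k)
    (h : Part n A B C) (hA : A.card = k) (hB : B.card = k) (hC : C.card = k) (h1 : 1 ∈ A) :
    k * (k + 1) * (k + 2) ≤ 6 * (tri A B C).card := by
  have hBn : B.Nonempty := Finset.card_pos.mp (by omega)
  have hCn : C.Nonempty := Finset.card_pos.mp (by omega)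
  have hq := B.max'_mem hBn
  have hr := C.max'_mem hCn
  have hqm : ∀ b ∈ B, b ≤ B.max' hBn := fun b hb => B.le_max' b hb
  have hrm : ∀ c ∈ C, c ≤ C.max' hCn := fun c hc => C.le_max' c hc
  rcases Nat.lt_trichotomy (B.max' hBn) (C.max' hCn) with hlt | heq | hgt
  · exact bound_balanced' ih hk h hA hB hC h1 hq hqm hr hrm hlt
  · exact absurd (heq ▸ hr) (h.bc _ hq)
  · rw [tri_swap23]
    exact bound_balanced' ih hk h.swap23 hA hC hB h1 hr hrm hq hqm hgt

/-- **Lower bound for the number of rainbow triangles.** If `A`, `B`, `C` partition `[1,n]` and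
each has at least `k` elements, then at least `k(k+1)(k+2)/6` rainbow triples satisfy the
triangle inequality. -/
theorem bound (n : ℕ) : Bound n := by
  induction n using Nat.strong_induction_on with
  | _ n ih =>
  intro A B C k h hA hB hC
  rcases Nat.eq_zero_or_pos k with rfl | hk
  · simp
  by_cases cA : k < A.card
  · exact bound_unbalanced ih h cA hB hC
  by_cases cB : k < B.card
  · rw [tri_swap12]
    exact bound_unbalanced ih h.swap12 cB hA hC
  by_cases cC : k < C.card
  · rw [tri_swap23, tri_swap12]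
    exact bound_unbalanced ih h.swap23.swap12 cC hA hB
  have eA : A.card = k := by omega
  have eB : B.card = k := by omega
  have eC : C.card = k := by omega
  have hn := card_sum h
  rcases (h.cov 1).2 ⟨le_rfl, by omega⟩ with h1 | h1 | h1
  · exact bound_balanced ih hk h eA eB eC h1
  · rw [tri_swap12]
    exact bound_balanced ih hk h.swap12 eB eA eC h1
  · rw [tri_swap23, tri_swap12]
    exact bound_balanced ih hk h.swap23.swap12 eC eA eB h1

end Pool.Agent.Work.MP_21c964_co
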