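import Pool.Agent.Work.MP_21c964_co.Defs
import Pool.Agent.Work.MP_21c964_co.Lower

set_option autoImplicit false

namespace Pool.Agent.Work.MP_21c964_co

open Finset

/-- Colour class. -/
def cls (n : ℕ) (χ : ℕ → Fin 3) (i : Fin 3) : Finset ℕ := (Finset.Icc 1 n).filter (fun x => χ x = i)

lemma mem_cls {n : ℕ} {χ : ℕ → Fin 3} {i : Fin 3} {x : ℕ} :
    x ∈ cls n χ i ↔ (1 ≤ x ∧ x ≤ n) ∧ χ x = i := by
  unfold cls
  rw [Finset.mem_filter, Finset.mem_Icc]

lemma fin3 (i : Fin 3) : i = 0 ∨ i = 1 ∨ i = 2 := by revert i; decide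

lemma part_cls (n : ℕ) (χ : ℕ → Fin 3) : Part n (cls n χ 0) (cls n χ 1) (cls n χ 2) := by
  refine ⟨?_, ?_, ?_, ?_⟩
  · intro x
    simp only [mem_cls]
    constructor
    · rintro (h | h | h) <;> exact h.1
    · intro h
      rcases fin3 (χ x) with h' | h' | h'
      · exact Or.inl ⟨h, h'⟩
      · exact Or.inr (Or.inl ⟨h, h'⟩)
      · exact Or.inr (Or.inr ⟨h, h'⟩)
  · intro x hx hx'
    rw [mem_cls] at hx hx'
    rw [hx.2] at hx'
    exact absurd hx'.2 (by decide)
  · intro x hx hx'
    rw [mem_cls] at hx hx'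
    rw [hx.2] at hx'
    exact absurd hx'.2 (by decide)
  · intro x hx hx'
    rw [mem_cls] at hx hx'
    rw [hx.2] at hx'
    exact absurd hx'.2 (by decide)

/-- Rainbow triples either satisfy the triangle inequalities or give exactly one solution. -/
lemma card_solutions (n : ℕ) (χ : ℕ → Fin 3) :
    (rainbowSolutions n χ).card + (tri (cls n χ 0) (cls n χ 1) (cls n χ 2)).card =
      (cls n χ 0).card * (cls n χ 1).card * (cls n χ 2).card := by
  classical
  set A := cls n χ 0 with hA
  set B := cls n χ 1 with hB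
  set C := cls n χ 2 with hC
  have hprod : (A ×ˢ B ×ˢ C).card = A.card * B.card * C.card := by
    rw [Finset.card_product, Finset.card_product, mul_assoc]
  rw [← hprod, ← Finset.card_filter_add_card_filter_not (s := A ×ˢ B ×ˢ C)
    (fun t => t.1 ≤ t.2.1 + t.2.2 ∧ t.2.1 ≤ t.1 + t.2.2 ∧ t.2.2 ≤ t.1 + t.2.1)]
  rw [add_comm]
  congr 1
  apply Finset.card_nbij'
    (fun t => ((if χ t.1 = 0 then t.1 else if χ t.2.1 = 0 then t.2.1 else t.2.2),
      (if χ t.1 = 1 then t.1 else if χ t.2.1 = 1 then t.2.1 else t.2.2),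
      (if χ t.1 = 2 then t.1 else if χ t.2.1 = 2 then t.2.1 else t.2.2)))
    (fun t => if t.2.1 + t.2.2 < t.1 then (min t.2.1 t.2.2, max t.2.1 t.2.2, t.1)
      else if t.1 + t.2.2 < t.2.1 then (min t.1 t.2.2, max t.1 t.2.2, t.2.1)
      else (min t.1 t.2.1, max t.1 t.2.1, t.2.2))
  · rintro ⟨x, y, z⟩ ht
    simp only [Finset.mem_coe, rainbowSolutions, Finset.mem_filter, Finset.mem_product,
      Finset.mem_Icc] at ht
    obtain ⟨⟨hx, hy, hz⟩, hxy, hxyz, c1, c2, c3⟩ := ht
    simp only [Finset.mem_coe, Finset.mem_filter, Finset.mem_product, hA, hB, hC, mem_cls]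
    rcases fin3 (χ x) with e1 | e1 | e1 <;> rcases fin3 (χ y) with e2 | e2 | e2 <;>
      rcases fin3 (χ z) with e3 | e3 | e3 <;> simp_all <;> omega
  · rintro ⟨a, b, c⟩ ht
    simp only [Finset.mem_coe, Finset.mem_filter, Finset.mem_product, hA, hB, hC, mem_cls] at ht
    obtain ⟨⟨⟨ha, ea⟩, ⟨hb, eb⟩, hc, ec⟩, hn⟩ := ht
    simp only [Finset.mem_coe, rainbowSolutions, Finset.mem_filter, Finset.mem_product,
      Finset.mem_Icc]
    have n01 : (0 : Fin 3) ≠ 1 := by decide
    have n02 : (0 : Fin 3) ≠ 2 := by decide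
    have n12 : (1 : Fin 3) ≠ 2 := by decide
    split_ifs with h1 h2
    · rcases le_total b c with h | h
      · simp only [min_eq_left h, max_eq_right h, ea, eb, ec]
        exact ⟨⟨hb, hc, ha⟩, h, h1, n12, n01.symm, n02.symm⟩
      · simp only [min_eq_right h, max_eq_left h, ea, eb, ec]
        exact ⟨⟨hc, hb, ha⟩, h, by omega, n12.symm, n02.symm, n01.symm⟩
    · rcases le_total a c with h | h
      · simp only [min_eq_left h, max_eq_right h, ea, eb, ec]
        exact ⟨⟨ha, hc, hb⟩, h, h2, n02, n01, n12.symm⟩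
      · simp only [min_eq_right h, max_eq_left h, ea, eb, ec]
        exact ⟨⟨hc, ha, hb⟩, h, by omega, n02.symm, n12.symm, n01⟩
    · rcases le_total a b with h | h
      · simp only [min_eq_left h, max_eq_right h, ea, eb, ec]
        exact ⟨⟨ha, hb, hc⟩, h, by omega, n01, n02, n12⟩
      · simp only [min_eq_right h, max_eq_left h, ea, eb, ec]
        exact ⟨⟨hb, ha, hc⟩, h, by omega, n01.symm, n12, n02⟩
  · rintro ⟨x, y, z⟩ ht
    simp only [Finset.mem_coe, rainbowSolutions, Finset.mem_filter, Finset.mem_product,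
      Finset.mem_Icc] at ht
    obtain ⟨⟨hx, hy, hz⟩, hxy, hxyz, c1, c2, c3⟩ := ht
    have m1 : min x y = x := min_eq_left hxy
    have m2 : max x y = y := max_eq_right hxy
    have m3 : min y x = x := min_eq_right hxy
    have m4 : max y x = y := max_eq_left hxy
    have k1 : x + y < z := hxyz
    have k2 : y + x < z := by omega
    have k3 : ¬ (y + z < x) := by omega
    have k4 : ¬ (z + y < x) := by omega
    have k5 : ¬ (x + z < y) := by omega
    have k6 : ¬ (z + x < y) := by omega
    rcases fin3 (χ x) with e1 | e1 | e1 <;> rcases fin3 (χ y) with e2 | e2 | e2 <;>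
      rcases fin3 (χ z) with e3 | e3 | e3 <;>
      first
        | (exfalso; simp_all; done)
        | simp [e1, e2, m1, m2, m3, m4, k1, k2, k3, k4, k5, k6]
  · rintro ⟨a, b, c⟩ ht
    simp only [Finset.mem_coe, Finset.mem_filter, Finset.mem_product, hA, hB, hC, mem_cls] at ht
    obtain ⟨⟨⟨ha, ea⟩, ⟨hb, eb⟩, hc, ec⟩, hn⟩ := ht
    by_cases h1 : b + c < a
    · rcases le_total b c with h | h
      · simp [h1, min_eq_left h, max_eq_right h, ea, eb, ec]
      · simp [h1, min_eq_right h, max_eq_left h, ea, eb, ec]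
    · by_cases h2 : a + c < b
      · rcases le_total a c with h | h
        · simp [h1, h2, min_eq_left h, max_eq_right h, ea, eb, ec]
        · simp [h1, h2, min_eq_right h, max_eq_left h, ea, eb, ec]
      · rcases le_total a b with h | h
        · simp [h1, h2, min_eq_left h, max_eq_right h, ea, eb, ec]
        · simp [h1, h2, min_eq_right h, max_eq_left h, ea, eb, ec]

end Pool.Agent.Work.MP_21c964_co
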