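import Pool.Agent.Work.MP_21c964_co.Exact

set_option autoImplicit false

namespace Pool.Agent.Work.MP_21c964_co

open Finset

lemma six_choose (a : ℕ) : 6 * (a + 2).choose 3 = a * (a + 1) * (a + 2) := by
  induction a with
  | zero => simp [Nat.choose]
  | succ a ih =>
    have h1 : (a + 1 + 2).choose 3 = (a + 2).choose 2 + (a + 2).choose 3 := by
      rw [show a + 1 + 2 = (a + 2) + 1 by ring, Nat.choose_succ_succ' (a + 2) 2]
    have h2 : 2 * (a + 2).choose 2 = (a + 2) * (a + 1) := by
      rw [Nat.choose_two_right]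
      have : 2 ∣ (a + 2) * (a + 2 - 1) := by
        have := Nat.even_mul_succ_self (a + 1)
        rw [show a + 2 - 1 = a + 1 by omega]
        rw [mul_comm] at this
        exact this.two_dvd
      rw [Nat.mul_div_cancel' this]
      congr 1
    rw [h1, mul_add, ih]
    nlinarith

/-- The closed form of the maximum. -/
def formula (n : ℕ) : ℕ :=
  (Finset.range (n / 3 + 1)).sup fun a => a * ((n - a) ^ 2 / 4) - (a + 2).choose 3

lemma formula_ge {n a : ℕ} (ha : 3 * a ≤ n) :
    a * ((n - a) ^ 2 / 4) - (a + 2).choose 3 ≤ formula n := by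
  unfold formula
  have h : a ∈ Finset.range (n / 3 + 1) := Finset.mem_range.mpr (by omega)
  exact Finset.le_sup (f := fun a => a * ((n - a) ^ 2 / 4) - (a + 2).choose 3) h

lemma upper_aux {a b c n N T : ℕ} (hn : a + b + c = n) (hab : a ≤ b) (hac : a ≤ c)
    (hN : N + T = a * b * c) (hT : a * (a + 1) * (a + 2) ≤ 6 * T) : N ≤ formula n := by
  refine le_trans ?_ (formula_ge (n := n) (a := a) (by omega))
  have h1 : b * c ≤ (n - a) ^ 2 / 4 := by
    rw [Nat.le_div_iff_mul_le (by norm_num)]
    have : n - a = b + c := by omega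
    rw [this]
    zify
    nlinarith [sq_nonneg ((b : ℤ) - c)]
  have h2 : a * b * c ≤ a * ((n - a) ^ 2 / 4) := by
    rw [mul_assoc]
    exact Nat.mul_le_mul_left _ h1
  have h3 := six_choose a
  omega

lemma upper (n : ℕ) (χ : ℕ → Fin 3) : (rainbowSolutions n χ).card ≤ formula n := by
  have h := part_cls n χ
  have hs := card_sum h
  have hN := card_solutions n χ
  have hb := fun k => bound n _ _ _ k h
  set a := (cls n χ 0).card
  set b := (cls n χ 1).card
  set c := (cls n χ 2).card
  rcases le_total a b with h1 | h1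
  · rcases le_total a c with h2 | h2
    · exact upper_aux hs h1 h2 hN (hb a le_rfl h1 h2)
    · exact upper_aux (a := c) (b := a) (c := b) (by omega) h2 (h2.trans h1)
        (by rw [hN]; ring) (hb c h2 (h2.trans h1) le_rfl)
  · rcases le_total b c with h2 | h2
    · exact upper_aux (a := b) (b := a) (c := c) (by omega) h1 h2
        (by rw [hN]; ring) (hb b h1 le_rfl h2)
    · exact upper_aux (a := c) (b := a) (c := b) (by omega) (h2.trans h1) h2
        (by rw [hN]; ring) (hb c (h2.trans h1) h2 le_rfl)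

/-- The interval colouring. -/
def blockCol (a b : ℕ) (x : ℕ) : Fin 3 := if x ≤ a then 0 else if x ≤ a + b then 1 else 2

lemma cls0 {n a b : ℕ} (h : a ≤ n) : cls n (blockCol a b) 0 = Finset.Icc 1 a := by
  ext x
  rw [mem_cls, Finset.mem_Icc]
  unfold blockCol
  split_ifs <;> simp <;> omega

lemma cls1 {n a b : ℕ} (h : a + b ≤ n) : cls n (blockCol a b) 1 = Finset.Ioc a (a + b) := by
  ext x
  rw [mem_cls, Finset.mem_Ioc]
  unfold blockCol
  split_ifs <;> simp <;> omega

lemma cls2 {n a b : ℕ} : cls n (blockCol a b) 2 = Finset.Ioc (a + b) n := by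
  ext x
  rw [mem_cls, Finset.mem_Ioc]
  unfold blockCol
  split_ifs <;> simp <;> omega

lemma sum_cubes (a : ℕ) : 3 * ∑ x ∈ Finset.Icc 1 a, x * (x + 1) = a * (a + 1) * (a + 2) := by
  induction a with
  | zero => simp
  | succ a ih =>
    rw [Finset.sum_Icc_succ_top (by omega), mul_add, ih]
    ring

lemma tri_block_le (n a b : ℕ) :
    6 * (tri (Finset.Icc 1 a) (Finset.Ioc a (a + b)) (Finset.Ioc (a + b) n)).card ≤
      a * (a + 1) * (a + 2) := by
  have h1 : (tri (Finset.Icc 1 a) (Finset.Ioc a (a + b)) (Finset.Ioc (a + b) n)).card ≤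
      ∑ x ∈ Finset.Icc 1 a, ((Finset.Ioc a (a + b) ×ˢ Finset.Ioc (a + b) n).filter
        (fun t => t.2 ≤ x + t.1)).card := by
    rw [← card_prod_filter (Finset.Icc 1 a) (Finset.Ioc a (a + b) ×ˢ Finset.Ioc (a + b) n)
      (fun x t => t.2 ≤ x + t.1)]
    apply Finset.card_le_card
    intro t ht
    rw [mem_tri] at ht
    rw [Finset.mem_filter, Finset.mem_product, Finset.mem_product]
    exact ⟨ht.1, ht.2.2.2⟩
  have h2 : ∀ x ∈ Finset.Icc 1 a, 2 * ((Finset.Ioc a (a + b) ×ˢ Finset.Ioc (a + b) n).filter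
        (fun t => t.2 ≤ x + t.1)).card ≤ x * (x + 1) := by
    intro x _
    rw [card_prod_filter (Finset.Ioc a (a + b)) (Finset.Ioc (a + b) n) (fun y z => z ≤ x + y)]
    have h3 : ∀ y ∈ Finset.Ioc a (a + b),
        ((Finset.Ioc (a + b) n).filter (fun z => z ≤ x + y)).card ≤ x - (a + b - y) := by
      intro y hy
      rw [Finset.mem_Ioc] at hy
      calc _ ≤ (Finset.Ioc (a + b) (x + y)).card := by
            apply Finset.card_le_card
            intro z hz
            rw [Finset.mem_filter, Finset.mem_Ioc] at hz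
            rw [Finset.mem_Ioc]
            exact ⟨hz.1.1, hz.2⟩
        _ ≤ _ := by rw [Nat.card_Ioc]; omega
    have h4 : ∑ y ∈ Finset.Ioc a (a + b), (x - (a + b - y)) = ∑ i ∈ range b, (x - i) := by
      have : Finset.Ioc a (a + b) = (range b).image (fun i => a + b - i) := by
        ext y
        simp only [Finset.mem_Ioc, Finset.mem_image, Finset.mem_range]
        constructor
        · rintro ⟨q1, q2⟩; exact ⟨a + b - y, by omega, by omega⟩
        · rintro ⟨i, q1, rfl⟩; omega
      rw [this, Finset.sum_image]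
      · apply Finset.sum_congr rfl
        intro i hi
        rw [Finset.mem_range] at hi
        omega
      · intro i hi j hj hij
        simp only [Finset.mem_coe, Finset.mem_range] at hi hj hij
        omega
    have h5 := sum_triangle x b
    calc _ ≤ 2 * ∑ y ∈ Finset.Ioc a (a + b), (x - (a + b - y)) :=
          Nat.mul_le_mul_left _ (Finset.sum_le_sum h3)
      _ ≤ _ := by rw [h4]; omega
  have h6 := sum_cubes a
  have h7 : 2 * ∑ x ∈ Finset.Icc 1 a, ((Finset.Ioc a (a + b) ×ˢ Finset.Ioc (a + b) n).filter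
        (fun t => t.2 ≤ x + t.1)).card ≤ ∑ x ∈ Finset.Icc 1 a, x * (x + 1) := by
    rw [Finset.mul_sum]
    exact Finset.sum_le_sum h2
  omega

lemma half_mul (m : ℕ) : (m / 2) * (m - m / 2) = m ^ 2 / 4 := by
  rcases Nat.even_or_odd' m with ⟨s, rfl | rfl⟩
  · have h1 : 2 * s / 2 = s := by omega
    have h2 : 2 * s - s = s := by omega
    rw [h1, h2, show (2 * s) ^ 2 = 4 * (s * s) by ring, Nat.mul_div_cancel_left _ (by norm_num)]
  · have h1 : (2 * s + 1) / 2 = s := by omega
    have h2 : 2 * s + 1 - s = s + 1 := by omega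
    rw [h1, h2, show (2 * s + 1) ^ 2 = 1 + 4 * (s * (s + 1)) by ring,
      Nat.add_mul_div_left _ _ (by norm_num)]
    simp

lemma lower_attained {n a : ℕ} (ha : 3 * a ≤ n) :
    a * ((n - a) ^ 2 / 4) - (a + 2).choose 3 ≤
      (rainbowSolutions n (blockCol a ((n - a) / 2))).card := by
  have hN := card_solutions n (blockCol a ((n - a) / 2))
  rw [cls0 (by omega), cls1 (by omega), cls2] at hN
  have hT := tri_block_le n a ((n - a) / 2)
  rw [Nat.card_Icc, Nat.card_Ioc, Nat.card_Ioc] at hN
  have e1 : a + 1 - 1 = a := by omega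
  have e2 : a + (n - a) / 2 - a = (n - a) / 2 := by omega
  have e3 : n - (a + (n - a) / 2) = (n - a) - (n - a) / 2 := by omega
  rw [e1, e2, e3, mul_assoc, half_mul] at hN
  have h6 := six_choose a
  omega

lemma formula_attained (n : ℕ) : ∃ χ : ℕ → Fin 3, formula n = (rainbowSolutions n χ).card := by
  obtain ⟨a, ha, hfa⟩ := Finset.exists_mem_eq_sup (Finset.range (n / 3 + 1))
    ⟨0, by simp⟩ (fun a => a * ((n - a) ^ 2 / 4) - (a + 2).choose 3)
  rw [Finset.mem_range] at ha
  refine ⟨blockCol a ((n - a) / 2), le_antisymm ?_ (upper n _)⟩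
  have h1 : formula n = a * ((n - a) ^ 2 / 4) - (a + 2).choose 3 := hfa
  rw [h1]
  exact lower_attained (by omega)

theorem isGreatest_formula (n : ℕ) :
    IsGreatest {N : ℕ | ∃ χ : ℕ → Fin 3, N = (rainbowSolutions n χ).card} (formula n) := by
  refine ⟨formula_attained n, ?_⟩
  rintro N ⟨χ, rfl⟩
  exact upper n χ

theorem RM3_eq_formula (n : ℕ) : RM3 n = formula n := (isGreatest_formula n).csSup_eq

end Pool.Agent.Work.MP_21c964_co
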