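import Pool.Agent.Work.MP_21c964_co.Core

set_option autoImplicit false

namespace Pool.Agent.Work.MP_21c964_co

open Finset

/-- Number of `b ∈ B` with `a + b ≥ r`. -/
def N1 (r : ℕ) (B : Finset ℕ) (a : ℕ) : ℕ := (B.filter (fun b => r ≤ a + b)).card

/-- Number of `c ∈ C`, `c ≠ r`, such that `a, q, c` satisfy the triangle inequalities. -/
def N2 (q r : ℕ) (C : Finset ℕ) (a : ℕ) : ℕ :=
  (C.filter (fun c => c ≠ r ∧ q ≤ a + c ∧ a ≤ q + c ∧ c ≤ q + a)).card

/-- Case `D ≤ q`. -/
lemma four_small {r q k : ℕ} {A B C : Finset ℕ} (h : Part r A B C) (hr : r ∈ C) (hq : q ∈ B)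
    (hqm : ∀ b ∈ B, b ≤ q) (hB : B.card = k) (hC : C.card = k) (hA : A.card ≤ k)
    (hD : r ≤ 2 * q) :
    A.card * (A.card + 1) ≤ 2 * ∑ a ∈ A, (N1 r B a + N2 q r C a) := by
  classical
  have hqr : q < r := by
    have h1 := ((h.cov q).1 (Or.inr (Or.inl hq))).2
    have h2 : q ≠ r := fun e => h.bc q hq (e ▸ hr)
    omega
  have hq1 : 1 ≤ q := ((h.cov q).1 (Or.inr (Or.inl hq))).1
  obtain ⟨d, hd⟩ : ∃ d, r = q + 1 + d := ⟨r - q - 1, by omega⟩
  have hqA : q ∉ A := fun e => h.ab q e hq
  have hrA : r ∉ A := fun e => h.ac r e hr
  have hsum := card_sum h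
  set al := cnt A q with hal
  set C1 := cnt C q with hC1
  have hBq : cnt B q = k := by rw [cnt_eq_card hqm, hB]
  have hqs : al + k + C1 = q := by
    have := cnt_sum h hqr.le
    rw [hBq] at this
    exact this
  -- the set of positions after `q` holding an `A` letter
  set T : ℕ → Prop := fun t => q + 1 + t ∈ A with hT
  set be := ((range d).filter T).card with hbe
  have hA1 : (A.filter (fun x => x ≤ q)).card = al := rfl
  have hA2 : (A.filter (fun x => q < x)) =
      ((range d).filter T).image (fun t => q + 1 + t) := by
    ext x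
    simp only [Finset.mem_filter, Finset.mem_image, Finset.mem_range, hT]
    constructor
    · rintro ⟨h1, h2⟩
      have h3 := ((h.cov x).1 (Or.inl h1)).2
      have h4 : x ≠ r := fun e => hrA (e ▸ h1)
      refine ⟨x - (q + 1), ⟨by omega, ?_⟩, by omega⟩
      rw [show q + 1 + (x - (q + 1)) = x by omega]
      exact h1
    · rintro ⟨t, ⟨h1, h2⟩, rfl⟩
      exact ⟨h2, by omega⟩
  have hinj : Function.Injective (fun t : ℕ => q + 1 + t) := by
    intro x y hxy
    simp only at hxy
    omega
  have hA2c : (A.filter (fun x => q < x)).card = be := by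
    rw [hA2, Finset.card_image_of_injective _ hinj]
  have hab : al + be = A.card := by
    rw [← hA2c, hal, cnt_add]
  -- split the sum
  have hsplit : ∑ a ∈ A, (N1 r B a + N2 q r C a) =
      ∑ a ∈ A.filter (fun x => x ≤ q), (N1 r B a + N2 q r C a) +
      ∑ t ∈ (range d).filter T, (N1 r B (q + 1 + t) + N2 q r C (q + 1 + t)) := by
    rw [← Finset.sum_filter_add_sum_filter_not A (fun x => x ≤ q)]
    congr 1
    simp only [not_le]
    rw [hA2, Finset.sum_image (fun x _ y _ hxy => hinj hxy)]
  -- contributions of the `A` letters after `q`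
  have hafter : ∀ t, t < d → (N1 r B (q + 1 + t) : ℤ) + N2 q r C (q + 1 + t) =
      2 * k - 1 - cnt B (d - 1 - t) - cnt C t := by
    intro t ht
    have e1 : N1 r B (q + 1 + t) + cnt B (d - 1 - t) = k := by
      rw [← hB, ← cnt_add B (d - 1 - t), add_comm]
      congr 1
      unfold N1
      congr 1
      apply Finset.filter_congr
      intro b _
      omega
    have e2 : N2 q r C (q + 1 + t) + 1 + cnt C t = k := by
      rw [← hC, ← cnt_add C t, add_comm]
      congr 1
      have : C.filter (fun x => t < x) =
          insert r (C.filter (fun c => c ≠ r ∧ q ≤ q + 1 + t + c ∧ q + 1 + t ≤ q + c ∧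
            c ≤ q + (q + 1 + t))) := by
        ext c
        simp only [Finset.mem_filter, Finset.mem_insert]
        constructor
        · rintro ⟨h1, h2⟩
          have h3 := ((h.cov c).1 (Or.inr (Or.inr h1))).2
          by_cases hc : c = r
          · exact Or.inl hc
          · right; exact ⟨h1, hc, by omega, by omega, by omega⟩
        · rintro (h1 | ⟨h1, h2, h3, h4, h5⟩)
          · subst h1; exact ⟨hr, by omega⟩
          · exact ⟨h1, by omega⟩
      rw [this, Finset.card_insert_of_notMem]
      · rfl
      · simp
    zify at e1 e2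
    linarith
  -- contributions of the `A` letters before `q`
  have hbefore : ∀ a ∈ A.filter (fun x => x ≤ q),
      ((range d).filter (fun t => ¬ T t ∧ t < a)).card +
      ((Finset.Icc (d + 1) q).filter (fun x => x ∉ A ∧ r ≤ a + x)).card ≤
      N1 r B a + N2 q r C a := by
    intro a ha
    rw [Finset.mem_filter] at ha
    obtain ⟨haA, haq⟩ := ha
    have haq' : a < q := lt_of_le_of_ne haq (fun e => hqA (e ▸ haA))
    have ha1 := ((h.cov a).1 (Or.inl haA)).1
    unfold N1 N2
    rw [← Finset.card_image_of_injective ((range d).filter (fun t => ¬ T t ∧ t < a)) hinj,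
      ← Finset.card_union_of_disjoint, ← Finset.card_union_of_disjoint]
    · apply Finset.card_le_card
      intro x hx
      simp only [Finset.mem_union, Finset.mem_image, Finset.mem_filter, Finset.mem_range,
        Finset.mem_Icc, hT] at hx ⊢
      rcases hx with ⟨t, ⟨h1, h2, h3⟩, rfl⟩ | ⟨⟨h1, h2⟩, h3, h4⟩
      · rcases (h.cov (q + 1 + t)).2 ⟨by omega, by omega⟩ with q1 | q1 | q1
        · exact absurd q1 h2
        · have := hqm _ q1; omega
        · right; exact ⟨q1, by omega, by omega, by omega, by omega⟩
      · rcases (h.cov x).2 ⟨by omega, by omega⟩ with q1 | q1 | q1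
        · exact absurd q1 h3
        · left; exact ⟨q1, h4⟩
        · right; exact ⟨q1, by omega, by omega, by omega, by omega⟩
    · rw [Finset.disjoint_left]
      intro x hx hx'
      simp only [Finset.mem_filter] at hx hx'
      exact h.bc x hx.1 hx'.1
    · rw [Finset.disjoint_left]
      intro x hx hx'
      simp only [Finset.mem_filter, Finset.mem_image, Finset.mem_Icc, Finset.mem_range] at hx hx'
      obtain ⟨t, _, rfl⟩ := hx
      omega
  -- first part, summed
  have hpart1 : ∑ a ∈ A.filter (fun x => x ≤ q),
      ((range d).filter (fun t => ¬ T t ∧ t < a)).card =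
      ∑ t ∈ (range d).filter (fun t => ¬ T t), (al - cnt A t) := by
    have e1 : ∀ a, ((range d).filter (fun t => ¬ T t ∧ t < a)).card =
        ∑ t ∈ (range d).filter (fun t => ¬ T t), if t < a then 1 else 0 := by
      intro a
      rw [← Finset.filter_filter, Finset.card_filter]
    simp only [e1]
    rw [Finset.sum_comm]
    apply Finset.sum_congr rfl
    intro t ht
    simp only [Finset.mem_filter, Finset.mem_range] at ht
    rw [← Finset.card_filter]
    have h1 : cnt (A.filter (fun x => x ≤ q)) t = cnt A t := by
      unfold cnt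
      congr 1
      rw [Finset.filter_filter]
      apply Finset.filter_congr
      intro x _
      omega
    have h2 := cnt_add (A.filter (fun x => x ≤ q)) t
    rw [h1, hA1] at h2
    omega
  -- second part, summed
  set p := al - d with hp
  have hpart2 : p * (p + 1) ≤ 2 * ∑ a ∈ A.filter (fun x => x ≤ q),
      ((Finset.Icc (d + 1) q).filter (fun x => x ∉ A ∧ r ≤ a + x)).card := by
    set A' := (Finset.Icc (d + 1) q).filter (fun x => x ∈ A) with hA'
    set X' := (Finset.Icc (d + 1) q).filter (fun x => x ∉ A) with hX'
    have hcardAX : A'.card + X'.card = q - d := by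
      rw [hA', hX', Finset.card_filter_add_card_filter_not, Nat.card_Icc]
      omega
    have hA'c : A'.card + cnt A d = al := by
      have h1 := cnt_add (A.filter (fun x => x ≤ q)) d
      have h2 : cnt (A.filter (fun x => x ≤ q)) d = cnt A d := by
        unfold cnt
        congr 1
        rw [Finset.filter_filter]
        apply Finset.filter_congr
        intro x _
        omega
      rw [h2, hA1] at h1
      rw [← h1, add_comm]
      congr 1
      congr 1
      ext x
      simp only [hA', Finset.mem_filter, Finset.mem_Icc]
      constructor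
      · rintro ⟨h1, h2⟩; exact ⟨⟨h2, by omega⟩, by omega⟩
      · rintro ⟨h1, h2⟩; exact ⟨⟨by omega, by omega⟩, h1.1⟩
    have hcd : cnt A d ≤ d := by
      have := cnt_sum h (show d ≤ r by omega)
      omega
    have := sum_pairs (q - d) (d + 1) q p A' X' (by omega)
      (by
        intro x
        simp only [hA', hX', Finset.mem_filter, Finset.mem_Icc]
        constructor
        · rintro (⟨h1, _⟩ | ⟨h1, _⟩) <;> exact h1
        · intro h1
          by_cases hx : x ∈ A
          · exact Or.inl ⟨h1, hx⟩
          · exact Or.inr ⟨h1, hx⟩)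
      (by
        intro x hx hx'
        simp only [hA', hX', Finset.mem_filter] at hx hx'
        exact hx'.2 hx.2)
      (by omega) (by omega)
    refine le_trans this ?_
    apply Nat.mul_le_mul_left
    have e2 : ((A' ×ˢ X').filter (fun t => d + 1 + q ≤ t.1 + t.2)).card =
        ∑ a ∈ A', (X'.filter (fun x => d + 1 + q ≤ a + x)).card := by
      rw [Finset.card_filter, Finset.sum_product]
      simp only [Finset.card_filter]
    rw [e2]
    calc ∑ a ∈ A', (X'.filter (fun x => d + 1 + q ≤ a + x)).card
        ≤ ∑ a ∈ A.filter (fun x => x ≤ q), (X'.filter (fun x => d + 1 + q ≤ a + x)).card := by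
          apply Finset.sum_le_sum_of_subset
          intro x hx
          simp only [hA', Finset.mem_filter, Finset.mem_Icc] at hx ⊢
          exact ⟨hx.2, hx.1.2⟩
      _ = _ := by
          apply Finset.sum_congr rfl
          intro a _
          rw [hX', Finset.filter_filter]
          congr 1
          apply Finset.filter_congr
          intro x _
          constructor
          · rintro ⟨h1, h2⟩; exact ⟨h1, by omega⟩
          · rintro ⟨h1, h2⟩; exact ⟨h1, by omega⟩
  -- abstract inequality
  have hkab : (al : ℤ) + be ≤ k := by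
    have : al + be ≤ k := by omega
    exact_mod_cast this
  have hstar := star d k al be C1 (fun t => cnt A t) (fun t => cnt B t) (fun t => cnt C t) T
    (by positivity)
    (by rw [hbe, Finset.card_filter]; push_cast; rfl)
    (by positivity)
    (by
      have : d + 1 + C1 = be + k := by omega
      exact_mod_cast this)
    hkab
    (by
      intro t ht
      have := cnt_sum h (show t ≤ r by omega)
      exact_mod_cast this)
    (by intro t _; positivity)
    (by
      intro t ht
      have : cnt A t ≤ al := cnt_mono A (by omega)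
      exact_mod_cast this)
    (by
      intro t ht
      have := cnt_sum h (show t ≤ r by omega)
      have : cnt A t ≤ t := by omega
      exact_mod_cast this)
    (by intro t s hts _; have := cnt_mono A hts; exact_mod_cast this)
    (by intro t s hts _; have := cnt_mono B hts; exact_mod_cast this)
    (by intro t s hts _; have := cnt_mono C hts; exact_mod_cast this)
  have htri := sum_triangle al d
  -- assemble
  have hS : (∑ a ∈ A, (N1 r B a + N2 q r C a) : ℕ) ≥
      ∑ t ∈ (range d).filter (fun t => ¬ T t), (al - cnt A t) +
      ∑ a ∈ A.filter (fun x => x ≤ q),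
        ((Finset.Icc (d + 1) q).filter (fun x => x ∉ A ∧ r ≤ a + x)).card +
      ∑ t ∈ (range d).filter T, (N1 r B (q + 1 + t) + N2 q r C (q + 1 + t)) := by
    rw [hsplit, ← hpart1, ← Finset.sum_add_distrib]
    exact Nat.add_le_add_right (Finset.sum_le_sum hbefore) _
  have hvv : (∑ t ∈ range d, ((al - t : ℕ) : ℤ)) +
      ∑ t ∈ range d, vv d k al (fun t => (cnt A t : ℤ)) (fun t => (cnt B t : ℤ))
        (fun t => (cnt C t : ℤ)) T t =
      ((∑ t ∈ (range d).filter (fun t => ¬ T t), (al - cnt A t) : ℕ) : ℤ) +
      ((∑ t ∈ (range d).filter T, (N1 r B (q + 1 + t) + N2 q r C (q + 1 + t)) : ℕ) : ℤ) := by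
    rw [← Finset.sum_add_distrib]
    push_cast
    rw [Finset.sum_filter, Finset.sum_filter, ← Finset.sum_add_distrib]
    apply Finset.sum_congr rfl
    intro t ht
    rw [Finset.mem_range] at ht
    have h1 : cnt A t ≤ al := cnt_mono A (by omega)
    have h2 := hafter t ht
    unfold vv
    by_cases hTt : T t
    · rw [if_pos hTt, if_neg (not_not.mpr hTt), if_pos hTt, h2]
      rcases le_total t al with c | c
      · have c' : (t : ℤ) ≤ al := by exact_mod_cast c
        rw [min_eq_left c']
        push_cast [c]
        ring
      · have c' : (al : ℤ) ≤ t := by exact_mod_cast c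
        rw [min_eq_right c', Nat.sub_eq_zero_of_le c]
        push_cast
        ring
    · rw [if_neg hTt, if_pos hTt, if_neg hTt]
      rcases le_total t al with c | c
      · have c' : (t : ℤ) ≤ al := by exact_mod_cast c
        rw [min_eq_left c']
        push_cast [c, h1]
        ring
      · have c' : (al : ℤ) ≤ t := by exact_mod_cast c
        rw [min_eq_right c', Nat.sub_eq_zero_of_le c]
        push_cast [h1]
        ring
  rw [← hab]
  zify at hS hpart2 htri ⊢
  have hpp : ((al - d : ℕ) : ℤ) = (p : ℤ) := by rw [hp]
  push_cast at hS hvv hstar hpart2 htri ⊢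
  nlinarith [hS, hvv, hstar, hpart2, htri]

end Pool.Agent.Work.MP_21c964_co
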