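import Pool.Agent.Work.MP_21c964_co.Four

set_option autoImplicit false

namespace Pool.Agent.Work.MP_21c964_co

open Finset

/-- Arithmetic for the case `D > q`. -/
lemma four_big_arith (al C1 y j be c2 S : ℕ) (hy : be = al + 2 * C1 + 1 + y)
    (e3 : c2 + C1 = al + be + j) (h5 : 2 * (be * c2) ≤ 2 * S + y * (y + 1)) :
    (al + be) * (al + be + 1) ≤ 2 * S := by
  obtain rfl : c2 = 2 * al + C1 + 1 + y + j := by omega
  subst hy
  have key : 2 * ((al + 2 * C1 + 1 + y) * (2 * al + C1 + 1 + y + j)) =
      (al + (al + 2 * C1 + 1 + y)) * (al + (al + 2 * C1 + 1 + y) + 1) + y * (y + 1) +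
      (2 * al * C1 + 2 * al * y + 2 * al * j + 2 * C1 * y + 4 * C1 * j + 2 * j + 2 * j * y) := by
    ring
  rw [key] at h5
  generalize (al + (al + 2 * C1 + 1 + y)) * (al + (al + 2 * C1 + 1 + y) + 1) = X at *
  generalize y * (y + 1) = Y at *
  generalize (2 * al * C1 + 2 * al * y + 2 * al * j + 2 * C1 * y + 4 * C1 * j + 2 * j +
    2 * j * y) = Z at *
  omega

/-- Case `D > q`. -/
lemma four_big {r q k : ℕ} {A B C : Finset ℕ} (h : Part r A B C) (hq : q ∈ B)
    (hqm : ∀ b ∈ B, b ≤ q) (hB : B.card = k) (hC : C.card = k) (hA : A.card ≤ k)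
    (hD : 2 * q < r) :
    A.card * (A.card + 1) ≤ 2 * ∑ a ∈ A, (N1 r B a + N2 q r C a) := by
  classical
  have hqr : q < r := by omega
  have hq1 : 1 ≤ q := ((h.cov q).1 (Or.inr (Or.inl hq))).1
  have hsum := card_sum h
  set al := cnt A q with hal
  set C1 := cnt C q with hC1
  have hBq : cnt B q = k := by rw [cnt_eq_card hqm, hB]
  have hqs : al + k + C1 = q := by
    have := cnt_sum h hqr.le
    rw [hBq] at this
    exact this
  set A2 := A.filter (fun x => q < x) with hA2
  set C2 := C.filter (fun x => q < x) with hC2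
  have hA2c : al + A2.card = A.card := cnt_add A q
  have hC2c : C1 + C2.card = C.card := cnt_add C q
  -- lower bound for one letter
  have hone : ∀ a ∈ A2, C2.card ≤ (N1 r B a + N2 q r C a) +
      ((C2.filter (fun c => q + c < a)).card + (C2.filter (fun c => q + a < c)).card) := by
    intro a ha
    rw [hA2, Finset.mem_filter] at ha
    obtain ⟨haA, haq⟩ := ha
    have har := ((h.cov a).1 (Or.inl haA)).2
    have h1 : C2 ⊆ ((if r ≤ q + a then {r} else ∅) ∪
        (C.filter (fun c => c ≠ r ∧ q ≤ a + c ∧ a ≤ q + c ∧ c ≤ q + a))) ∪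
        ((C2.filter (fun c => q + c < a)) ∪ (C2.filter (fun c => q + a < c))) := by
      intro c hc
      have hc' := hc
      rw [hC2, Finset.mem_filter] at hc
      simp only [Finset.mem_union, Finset.mem_filter]
      by_cases h2 : q + c < a
      · right; left; exact ⟨hc', h2⟩
      · by_cases h3 : q + a < c
        · right; right; exact ⟨hc', h3⟩
        · left
          by_cases h4 : c = r
          · left
            rw [if_pos (by omega)]
            simp [h4]
          · right
            exact ⟨hc.1, h4, by omega, by omega, by omega⟩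
    have h2 : (if r ≤ q + a then ({r} : Finset ℕ) else ∅).card ≤ N1 r B a := by
      split_ifs with h3
      · rw [Finset.card_singleton]
        unfold N1
        apply Finset.card_pos.mpr
        exact ⟨q, by rw [Finset.mem_filter]; exact ⟨hq, by omega⟩⟩
      · simp
    calc C2.card ≤ _ := Finset.card_le_card h1
      _ ≤ _ := Finset.card_union_le _ _
      _ ≤ _ := by
          apply Nat.add_le_add
          · refine le_trans (Finset.card_union_le _ _) ?_
            exact Nat.add_le_add_right h2 _
          · exact Finset.card_union_le _ _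
  -- weights
  have hw1 : ∀ a ∈ A2, (C2.filter (fun c => q + a < c)).card ≤ r - (q + a) := by
    intro a _
    have : (C2.filter (fun c => q + a < c)) ⊆ Finset.Ioc (q + a) r := by
      intro c hc
      simp only [hC2, Finset.mem_filter, Finset.mem_Ioc] at hc ⊢
      have := ((h.cov c).1 (Or.inr (Or.inr hc.1.1))).2
      exact ⟨hc.2, this⟩
    calc _ ≤ _ := Finset.card_le_card this
      _ = _ := by rw [Nat.card_Ioc]
  have hw2 : ∀ c ∈ C2, (A2.filter (fun a => q + c < a)).card ≤ r - (q + c) := by
    intro c _
    have : (A2.filter (fun a => q + c < a)) ⊆ Finset.Ioc (q + c) r := by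
      intro a ha
      simp only [hA2, Finset.mem_filter, Finset.mem_Ioc] at ha ⊢
      have := ((h.cov a).1 (Or.inl ha.1.1)).2
      exact ⟨ha.2, this⟩
    calc _ ≤ _ := Finset.card_le_card this
      _ = _ := by rw [Nat.card_Ioc]
  have hsw : ∑ a ∈ A2, (C2.filter (fun c => q + c < a)).card =
      ∑ c ∈ C2, (A2.filter (fun a => q + c < a)).card := by
    simp only [Finset.card_filter]
    rw [Finset.sum_comm]
  have hW : 2 * (∑ a ∈ A2, (r - (q + a)) + ∑ c ∈ C2, (r - (q + c))) =
      (r - 2 * q - 1) * (r - 2 * q) := by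
    have hdis : Disjoint A2 C2 := by
      rw [Finset.disjoint_left]
      intro x hx hx'
      simp only [hA2, hC2, Finset.mem_filter] at hx hx'
      exact h.ac x hx.1 hx'.1
    have hun : A2 ∪ C2 = (range (r - q)).image (fun t => q + 1 + t) := by
      ext x
      simp only [hA2, hC2, Finset.mem_union, Finset.mem_filter, Finset.mem_image,
        Finset.mem_range]
      constructor
      · rintro (⟨h1, h2⟩ | ⟨h1, h2⟩)
        · have := ((h.cov x).1 (Or.inl h1)).2
          exact ⟨x - (q + 1), by omega, by omega⟩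
        · have := ((h.cov x).1 (Or.inr (Or.inr h1))).2
          exact ⟨x - (q + 1), by omega, by omega⟩
      · rintro ⟨t, h1, rfl⟩
        rcases (h.cov (q + 1 + t)).2 ⟨by omega, by omega⟩ with q1 | q1 | q1
        · left; exact ⟨q1, by omega⟩
        · have := hqm _ q1; omega
        · right; exact ⟨q1, by omega⟩
    rw [← Finset.sum_union hdis, hun, Finset.sum_image]
    · have := sum_triangle (r - 2 * q - 1) (r - q)
      have e : r - 2 * q - 1 - (r - q) = 0 := by omega
      rw [e] at this
      have e2 : r - 2 * q - 1 + 1 = r - 2 * q := by omega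
      rw [e2] at this
      simp only [Nat.zero_mul, add_zero] at this
      rw [← this]
      congr 1
      apply Finset.sum_congr rfl
      intro t _
      omega
    · intro x _ y _ hxy
      simp only at hxy
      omega
  have htot : A2.card * C2.card ≤ ∑ a ∈ A, (N1 r B a + N2 q r C a) +
      (∑ a ∈ A2, (r - (q + a)) + ∑ c ∈ C2, (r - (q + c))) := by
    calc A2.card * C2.card = ∑ _a ∈ A2, C2.card := by rw [Finset.sum_const, smul_eq_mul]
      _ ≤ ∑ a ∈ A2, ((N1 r B a + N2 q r C a) +
          ((C2.filter (fun c => q + c < a)).card + (C2.filter (fun c => q + a < c)).card)) :=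
          Finset.sum_le_sum hone
      _ = ∑ a ∈ A2, (N1 r B a + N2 q r C a) +
          (∑ a ∈ A2, (C2.filter (fun c => q + a < c)).card +
            ∑ c ∈ C2, (A2.filter (fun a => q + c < a)).card) := by
          rw [← hsw]
          simp only [Finset.sum_add_distrib]
          ring
      _ ≤ _ := by
          apply Nat.add_le_add
          · apply Finset.sum_le_sum_of_subset
            exact Finset.filter_subset _ _
          · exact Nat.add_le_add (Finset.sum_le_sum hw1) (Finset.sum_le_sum hw2)
  -- arithmetic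
  set S := ∑ a ∈ A, (N1 r B a + N2 q r C a) with hS
  set be := A2.card with hbe
  obtain ⟨j, hj⟩ : ∃ j, k = al + be + j := ⟨k - (al + be), by omega⟩
  have hr2 : r = al + be + 2 * k := by omega
  obtain ⟨y, hy⟩ : ∃ y, be = al + 2 * C1 + 1 + y := ⟨be - (al + 2 * C1 + 1), by omega⟩
  have e1 : r - 2 * q - 1 = y := by omega
  have e2 : r - 2 * q = y + 1 := by omega
  rw [e1, e2] at hW
  have e3 : C2.card + C1 = al + be + j := by omega
  have h5 : 2 * (be * C2.card) ≤ 2 * S + y * (y + 1) := by
    rw [← hW]; linarith
  rw [← hA2c]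
  exact four_big_arith al C1 y j be C2.card S hy e3 h5

/-- The key inequality. -/
lemma four {r q k : ℕ} {A B C : Finset ℕ} (h : Part r A B C) (hr : r ∈ C) (hq : q ∈ B)
    (hqm : ∀ b ∈ B, b ≤ q) (hB : B.card = k) (hC : C.card = k) (hA : A.card ≤ k) :
    A.card * (A.card + 1) ≤ 2 * ∑ a ∈ A, (N1 r B a + N2 q r C a) := by
  rcases Nat.lt_or_ge (2 * q) r with hD | hD
  · exact four_big h hq hqm hB hC hA hD
  · exact four_small h hr hq hqm hB hC hA hD

end Pool.Agent.Work.MP_21c964_co
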