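import Mathlib

set_option autoImplicit false

namespace Pool.Agent.Work.MP_21c964_co

open Finset

/-- Splitting a sum over an initial segment into pairs symmetric about the middle. -/
lemma sum_pair_even (f : ℕ → ℤ) (s : ℕ) :
    ∑ t ∈ range (2 * s), f t = ∑ t ∈ range s, (f t + f (2 * s - 1 - t)) := by
  rw [Finset.sum_add_distrib, two_mul, Finset.sum_range_add]
  congr 1
  rw [← Finset.sum_range_reflect (fun j => f (s + j)) s]
  apply Finset.sum_congr rfl
  intro t ht
  rw [Finset.mem_range] at ht
  congr 1
  omega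

lemma sum_pair_odd (f : ℕ → ℤ) (s : ℕ) :
    ∑ t ∈ range (2 * s + 1), f t = ∑ t ∈ range s, (f t + f (2 * s - t)) + f s := by
  rw [Finset.sum_add_distrib, show 2 * s + 1 = s + (s + 1) by omega, Finset.sum_range_add,
    Finset.sum_range_succ' (fun x => f (s + x)), add_zero, add_assoc]
  congr 2
  rw [← Finset.sum_range_reflect (fun j => f (s + (j + 1))) s]
  apply Finset.sum_congr rfl
  intro t ht
  rw [Finset.mem_range] at ht
  congr 1
  omega

/-- The number of missing letters. -/
lemma sum_triangle (al d : ℕ) :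
    2 * ∑ t ∈ range d, (al - t) + (al - d) * (al - d + 1) = al * (al + 1) := by
  induction d with
  | zero => simp
  | succ d ih =>
    rw [Finset.sum_range_succ]
    rcases Nat.lt_or_ge d al with h | h
    · obtain ⟨e, rfl⟩ : ∃ e, al = d + 1 + e := ⟨al - (d + 1), by omega⟩
      have h1 : d + 1 + e - d = e + 1 := by omega
      have h2 : d + 1 + e - (d + 1) = e := by omega
      rw [h1] at ih ⊢
      rw [h2]
      nlinarith [ih]
    · have h1 : al - d = 0 := by omega
      have h2 : al - (d + 1) = 0 := by omega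
      rw [h1] at ih ⊢
      rw [h2]
      omega

section star

variable (d : ℕ) (k al be C1 : ℤ) (A B C : ℕ → ℤ) (T : ℕ → Prop) [DecidablePred T]

/-- value attached to a position -/
def vv (t : ℕ) : ℤ :=
  (min (t : ℤ) al - A t) + if T t then (2 * k - 1 - al - B (d - 1 - t) - C t + A t) else 0

/-- Weighted inequality over the positions `0, …, d-1`. -/
theorem star (hal : 0 ≤ al) (hbe : (be : ℤ) = ∑ t ∈ range d, if T t then 1 else 0)
    (hC1 : 0 ≤ C1) (hD : (d : ℤ) + 1 + C1 = be + k) (hk : al + be ≤ k)
    (hsum : ∀ t, t < d → A t + B t + C t = t)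
    (hA0 : ∀ t, t < d → 0 ≤ A t) (hAal : ∀ t, t < d → A t ≤ al)
    (hAt : ∀ t, t < d → A t ≤ t)
    (hAm : ∀ t s, t ≤ s → s < d → A t ≤ A s)
    (hBm : ∀ t s, t ≤ s → s < d → B t ≤ B s)
    (hCm : ∀ t s, t ≤ s → s < d → C t ≤ C s) :
    2 * al * be + be * (be + 1) ≤ 2 * ∑ t ∈ range d, vv d k al A B C T t := by
  classical
  have hbe0 : 0 ≤ be := by
    rw [hbe]
    apply Finset.sum_nonneg
    intro t _
    split_ifs <;> norm_num
  -- `T` nonempty gives `1 ≤ be`
  have hbe1 : ∀ t, t < d → T t → 1 ≤ be := by
    intro t ht hT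
    rw [hbe]
    have h1 : (1 : ℤ) = if T t then 1 else 0 := by rw [if_pos hT]
    calc (1 : ℤ) = if T t then 1 else 0 := h1
      _ ≤ _ := Finset.single_le_sum (f := fun t => if T t then (1 : ℤ) else 0)
          (fun i _ => by split_ifs <;> norm_num) (Finset.mem_range.mpr ht)
  -- pairs
  have pair : ∀ t, t < d - 1 - t →
      (T t → T (d - 1 - t) → 2 * al + 2 * be ≤
        vv d k al A B C T t + vv d k al A B C T (d - 1 - t)) ∧
      (T t → ¬ T (d - 1 - t) → al + t + 1 ≤
        vv d k al A B C T t + vv d k al A B C T (d - 1 - t)) ∧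
      (¬ T t → T (d - 1 - t) → al + t + 1 ≤
        vv d k al A B C T t + vv d k al A B C T (d - 1 - t)) ∧
      (¬ T t → ¬ T (d - 1 - t) → 0 ≤
        vv d k al A B C T t + vv d k al A B C T (d - 1 - t)) := by
    intro t ht
    obtain ⟨s, hs⟩ : ∃ s, s = d - 1 - t := ⟨_, rfl⟩
    rw [← hs] at ht ⊢
    have hsd : s < d := by omega
    have htd : t < d := by omega
    have hts : (t : ℤ) + s + 1 = d := by omega
    have hts' : (t : ℤ) + 1 ≤ s := by omega
    have hds : d - 1 - s = t := by omega
    have e1 := hsum t htd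
    have e2 := hsum s hsd
    have a0 := hA0 t htd
    have a1 := hA0 s hsd
    have a2 := hAal t htd
    have a3 := hAal s hsd
    have a4 := hAt t htd
    have a5 := hAt s hsd
    have m1 := hAm t s ht.le hsd
    have m2 := hBm t s ht.le hsd
    have m3 := hCm t s ht.le hsd
    have b1 := hbe1 t htd
    have b2 := hbe1 s hsd
    unfold vv
    rw [hds, ← hs]
    refine ⟨?_, ?_, ?_, ?_⟩
    · intro h1 h2
      have b1' := b1 h1
      rw [if_pos h1, if_pos h2]
      rcases le_total (t : ℤ) al with c1 | c1 <;> rcases le_total (s : ℤ) al with c2 | c2 <;>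
        simp only [min_eq_left c1, min_eq_right c1, min_eq_left c2, min_eq_right c2] <;> linarith
    · intro h1 h2
      have b1' := b1 h1
      rw [if_pos h1, if_neg h2]
      rcases le_total (t : ℤ) al with c1 | c1 <;> rcases le_total (s : ℤ) al with c2 | c2 <;>
        simp only [min_eq_left c1, min_eq_right c1, min_eq_left c2, min_eq_right c2] <;> linarith
    · intro h1 h2
      have b1' := b2 h2
      rw [if_neg h1, if_pos h2]
      rcases le_total (t : ℤ) al with c1 | c1 <;> rcases le_total (s : ℤ) al with c2 | c2 <;>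
        simp only [min_eq_left c1, min_eq_right c1, min_eq_left c2, min_eq_right c2] <;> linarith
    · intro h1 h2
      rw [if_neg h1, if_neg h2]
      rcases le_total (t : ℤ) al with c1 | c1 <;> rcases le_total (s : ℤ) al with c2 | c2 <;>
        simp only [min_eq_left c1, min_eq_right c1, min_eq_left c2, min_eq_right c2] <;> linarith
  -- outer induction
  have outer : ∀ s, 2 * s ≤ d → ∃ s1 s2 : ℕ,
      (∑ t ∈ range s, ((if T t then (1 : ℤ) else 0) + if T (d - 1 - t) then 1 else 0)
        = s1 + 2 * s2) ∧ s1 ≤ s ∧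
      2 * al * (s1 + 2 * s2) + s1 * (s1 + 1) + 4 * be * s2 ≤
        2 * ∑ t ∈ range s, (vv d k al A B C T t + vv d k al A B C T (d - 1 - t)) := by
    intro s
    induction s with
    | zero =>
      intro _
      exact ⟨0, 0, by simp, le_rfl, by simp⟩
    | succ s ih =>
      intro hs
      obtain ⟨s1, s2, h1, h2, h3⟩ := ih (by omega)
      obtain ⟨p1, p2, p3, p4⟩ := pair s (by omega)
      rw [Finset.sum_range_succ, Finset.sum_range_succ]
      by_cases t1 : T s <;> by_cases t2 : T (d - 1 - s)
      · refine ⟨s1, s2 + 1, ?_, by omega, ?_⟩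
        · rw [h1, if_pos t1, if_pos t2]; push_cast; ring
        · have := p1 t1 t2
          push_cast
          nlinarith
      · refine ⟨s1 + 1, s2, ?_, by omega, ?_⟩
        · rw [h1, if_pos t1, if_neg t2]; push_cast; ring
        · have := p2 t1 t2
          have h2' : (s1 : ℤ) ≤ s := by exact_mod_cast h2
          push_cast
          nlinarith
      · refine ⟨s1 + 1, s2, ?_, by omega, ?_⟩
        · rw [h1, if_neg t1, if_pos t2]; push_cast; ring
        · have := p3 t1 t2
          have h2' : (s1 : ℤ) ≤ s := by exact_mod_cast h2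
          push_cast
          nlinarith
      · refine ⟨s1, s2, ?_, by omega, ?_⟩
        · rw [h1, if_neg t1, if_neg t2]; ring
        · have := p4 t1 t2
          linarith
  rcases Nat.even_or_odd' d with ⟨s, hs | hs⟩
  · obtain ⟨s1, s2, h1, h2, h3⟩ := outer s (by omega)
    have e1 : (be : ℤ) = s1 + 2 * s2 := by
      rw [hbe, hs, sum_pair_even, ← h1, hs]
    have e2 : ∑ t ∈ range d, vv d k al A B C T t =
        ∑ t ∈ range s, (vv d k al A B C T t + vv d k al A B C T (d - 1 - t)) := by
      conv_lhs => rw [hs]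
      rw [sum_pair_even]
      rw [hs]
    rw [e2]
    have q1 : (0 : ℤ) ≤ s1 := by positivity
    have q2 : (0 : ℤ) ≤ s2 := by positivity
    have q3 : (s2 : ℤ) ≤ s2 * s2 := by
      have : s2 ≤ s2 * s2 := Nat.le_mul_self s2
      exact_mod_cast this
    refine le_trans ?_ h3
    rw [e1]
    nlinarith [mul_nonneg q1 q2]
  · obtain ⟨s1, s2, h1, h2, h3⟩ := outer s (by omega)
    have hd1 : d - 1 = 2 * s := by omega
    have e2 : ∑ t ∈ range d, vv d k al A B C T t =
        ∑ t ∈ range s, (vv d k al A B C T t + vv d k al A B C T (d - 1 - t))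
          + vv d k al A B C T s := by
      conv_lhs => rw [hs]
      rw [sum_pair_odd, ← hs, hd1]
    have e1 : (be : ℤ) = s1 + 2 * s2 + if T s then 1 else 0 := by
      rw [hbe, ← h1, hd1]
      conv_lhs => rw [hs]
      rw [sum_pair_odd]
    have hsd : s < d := by omega
    have hss : d - 1 - s = s := by omega
    have q1 : (0 : ℤ) ≤ s1 := by positivity
    have q2 : (0 : ℤ) ≤ s2 := by positivity
    have q3 : (s2 : ℤ) ≤ s2 * s2 := by
      have : s2 ≤ s2 * s2 := Nat.le_mul_self s2
      exact_mod_cast this
    have f1 := hsum s hsd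
    have f2 := hA0 s hsd
    have f3 := hAal s hsd
    have f4 := hAt s hsd
    have f5 : (d : ℤ) = 2 * s + 1 := by exact_mod_cast hs
    rw [e2]
    by_cases hT : T s
    · have b1 := hbe1 s hsd hT
      have hv : al + be ≤ vv d k al A B C T s := by
        unfold vv
        rw [hss, if_pos hT]
        rcases le_total (s : ℤ) al with c1 | c1 <;>
          simp only [min_eq_left c1, min_eq_right c1] <;> linarith
      rw [if_pos hT] at e1
      have : 2 * al * be + be * (be + 1) ≤
          2 * al * (s1 + 2 * s2) + s1 * (s1 + 1) + 4 * be * s2 + 2 * (al + be) := by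
        rw [e1]
        nlinarith [mul_nonneg q1 q2]
      linarith
    · have hv : 0 ≤ vv d k al A B C T s := by
        unfold vv
        rw [if_neg hT]
        rcases le_total (s : ℤ) al with c1 | c1 <;>
          simp only [min_eq_left c1, min_eq_right c1] <;> linarith
      rw [if_neg hT] at e1
      have : 2 * al * be + be * (be + 1) ≤
          2 * al * (s1 + 2 * s2) + s1 * (s1 + 1) + 4 * be * s2 := by
        rw [e1]
        nlinarith [mul_nonneg q1 q2]
      linarith

end star

end Pool.Agent.Work.MP_21c964_co
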