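import Pool.Agent.Work.MP_21c964_co.FourBig

set_option autoImplicit false

namespace Pool.Agent.Work.MP_21c964_co

open Finset

/-- Triples `(a,b,c)`, one from each class, satisfying the three (weak) triangle inequalities. -/
def tri (A B C : Finset ℕ) : Finset (ℕ × ℕ × ℕ) :=
  (A ×ˢ B ×ˢ C).filter (fun t => t.1 ≤ t.2.1 + t.2.2 ∧ t.2.1 ≤ t.1 + t.2.2 ∧ t.2.2 ≤ t.1 + t.2.1)

lemma mem_tri {A B C : Finset ℕ} {t : ℕ × ℕ × ℕ} :
    t ∈ tri A B C ↔ (t.1 ∈ A ∧ t.2.1 ∈ B ∧ t.2.2 ∈ C) ∧
      (t.1 ≤ t.2.1 + t.2.2 ∧ t.2.1 ≤ t.1 + t.2.2 ∧ t.2.2 ≤ t.1 + t.2.1) := by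
  unfold tri
  rw [Finset.mem_filter, Finset.mem_product, Finset.mem_product]

/-- The increasing enumeration of `ℕ \ {p}`. -/
def iota (p x : ℕ) : ℕ := if x < p then x else x + 1

lemma iota_inj (p : ℕ) : Function.Injective (iota p) := by
  intro x y h
  unfold iota at h
  split_ifs at h <;> omega

/-- Delete the letter at position `p` and close the gap. -/
noncomputable def del (p : ℕ) (A : Finset ℕ) : Finset ℕ := A.preimage (iota p) ((iota_inj p).injOn)

lemma mem_del {p x : ℕ} {A : Finset ℕ} : x ∈ del p A ↔ iota p x ∈ A := Finset.mem_preimage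

lemma card_del (p : ℕ) (A : Finset ℕ) : (del p A).card = (A.erase p).card := by
  rw [← Finset.card_image_of_injective (del p A) (iota_inj p)]
  congr 1
  ext y
  simp only [Finset.mem_image, mem_del, Finset.mem_erase]
  constructor
  · rintro ⟨x, hx, rfl⟩
    refine ⟨?_, hx⟩
    unfold iota
    split_ifs <;> omega
  · rintro ⟨h1, h2⟩
    refine ⟨if y < p then y else y - 1, ?_, ?_⟩
    · have : iota p (if y < p then y else y - 1) = y := by
        unfold iota
        split_ifs <;> omega
      rw [this]; exact h2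
    · unfold iota
      split_ifs <;> omega

lemma card_del_of_mem {p : ℕ} {A : Finset ℕ} (h : p ∈ A) : (del p A).card + 1 = A.card := by
  rw [card_del, Finset.card_erase_add_one h]

lemma card_del_of_notMem {p : ℕ} {A : Finset ℕ} (h : p ∉ A) : (del p A).card = A.card := by
  rw [card_del, Finset.erase_eq_of_notMem h]

lemma part_del {n p : ℕ} {A B C : Finset ℕ} (h : Part n A B C) (h1 : 1 ≤ p) (h2 : p ≤ n) :
    Part (n - 1) (del p A) (del p B) (del p C) := by
  refine ⟨?_, ?_, ?_, ?_⟩
  · intro x
    rw [mem_del, mem_del, mem_del, h.cov]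
    unfold iota
    split_ifs <;> omega
  · intro x hx hx'
    rw [mem_del] at hx hx'
    exact h.ab _ hx hx'
  · intro x hx hx'
    rw [mem_del] at hx hx'
    exact h.ac _ hx hx'
  · intro x hx hx'
    rw [mem_del] at hx hx'
    exact h.bc _ hx hx'

lemma card_prod_filter {α β : Type*} [DecidableEq α] [DecidableEq β] (A : Finset α)
    (B : Finset β) (P : α → β → Prop) [∀ a b, Decidable (P a b)] :
    ((A ×ˢ B).filter (fun t => P t.1 t.2)).card = ∑ a ∈ A, (B.filter (fun b => P a b)).card := by
  rw [Finset.card_filter, Finset.sum_product]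
  simp only [Finset.card_filter]

/-- Deleting the first letter of a class does not increase the number of triangles. -/
lemma tri_del_first {n p : ℕ} {A B C : Finset ℕ} (h : Part n A B C) (hp : p ∈ A)
    (hmin : ∀ a ∈ A, p ≤ a) :
    (tri (del p A) (del p B) (del p C)).card ≤ (tri A B C).card := by
  classical
  apply Finset.card_le_card_of_injOn
    (fun t => (if iota p t.1 ≤ iota p t.2.1 + iota p t.2.2 then iota p t.1 else p,
      iota p t.2.1, iota p t.2.2))
  · intro t ht
    rw [Finset.mem_coe, mem_tri] at ht ⊢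
    obtain ⟨⟨h1, h2, h3⟩, h4, h5, h6⟩ := ht
    rw [mem_del] at h1 h2 h3
    have m1 := hmin _ h1
    have n1 : iota p t.1 ≠ p := by unfold iota; split_ifs <;> omega
    have n2 : iota p t.2.1 ≠ p := fun e => h.ab _ hp (e ▸ h2)
    have n3 : iota p t.2.2 ≠ p := fun e => h.ac _ hp (e ▸ h3)
    simp only
    split_ifs with hc
    · refine ⟨⟨h1, h2, h3⟩, hc, ?_, ?_⟩
      · unfold iota at *; split_ifs at * <;> omega
      · unfold iota at *; split_ifs at * <;> omega
    · refine ⟨⟨hp, h2, h3⟩, ?_, ?_, ?_⟩ <;> (unfold iota at *; split_ifs at * <;> omega)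
  · intro t ht s hs hts
    rw [Finset.mem_coe, mem_tri] at ht hs
    simp only [Prod.mk.injEq] at hts
    obtain ⟨e1, e2, e3⟩ := hts
    have f2 := iota_inj p e2
    have f3 := iota_inj p e3
    have nt : iota p t.1 ≠ p := by unfold iota; split_ifs <;> omega
    have ns : iota p s.1 ≠ p := by unfold iota; split_ifs <;> omega
    have f1 : t.1 = s.1 := by
      obtain ⟨⟨t1, t2, t3⟩, t4, t5, t6⟩ := ht
      obtain ⟨⟨s1, s2, s3⟩, s4, s5, s6⟩ := hs
      rw [mem_del] at t1 s1
      have m1 := hmin _ t1
      have m2 := hmin _ s1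
      rw [f2, f3] at t4 e1
      by_cases c1 : iota p t.1 ≤ iota p s.2.1 + iota p s.2.2
      · by_cases c2 : iota p s.1 ≤ iota p s.2.1 + iota p s.2.2
        · rw [if_pos c1, if_pos c2] at e1
          exact iota_inj p e1
        · rw [if_pos c1, if_neg c2] at e1
          exact absurd e1 nt
      · by_cases c2 : iota p s.1 ≤ iota p s.2.1 + iota p s.2.2
        · rw [if_neg c1, if_pos c2] at e1
          exact absurd e1.symm ns
        · unfold iota at *
          split_ifs at * <;> omega
    exact Prod.ext f1 (Prod.ext f2 f3)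

/-- The composite enumeration of `ℕ \ {1, q, r}`. -/
def jot (q r x : ℕ) : ℕ := iota r (iota q (iota 1 x))

lemma jot_inj (q r : ℕ) : Function.Injective (jot q r) := by
  intro x y h
  exact iota_inj 1 (iota_inj q (iota_inj r h))

lemma jot_cases {q r x : ℕ} (hqr : q < r) (hx : 1 ≤ x) :
    (x + 1 < q ∧ jot q r x = x + 1) ∨ (q ≤ x + 1 ∧ x + 2 < r ∧ jot q r x = x + 2) ∨
      (r ≤ x + 2 ∧ jot q r x = x + 3) := by
  unfold jot iota
  split_ifs <;> omega

lemma jot_zero {q r : ℕ} (hq : 1 ≤ q) (hr : 1 ≤ r) : jot q r 0 = 0 := by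
  unfold jot iota
  split_ifs <;> omega

/-- The main step: deleting position `1` and the last letters of the two other classes. -/
lemma step {n k q r : ℕ} {A B C : Finset ℕ} (h : Part n A B C)
    (hAc : A.card = k) (hBc : B.card = k) (hCc : C.card = k)
    (hq : q ∈ B) (hqm : ∀ b ∈ B, b ≤ q) (hr : r ∈ C) (hrm : ∀ c ∈ C, c ≤ r) (hqr : q < r) :
    2 * (tri (del 1 (del q (del r A))) (del 1 (del q (del r B))) (del 1 (del q (del r C)))).card
      + k * (k + 1) ≤ 2 * (tri A B C).card := by
  classical
  have hq1 : 1 ≤ q := ((h.cov q).1 (Or.inr (Or.inl hq))).1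
  have hr1 : 1 ≤ r := ((h.cov r).1 (Or.inr (Or.inr hr))).1
  have hrn : r ≤ n := ((h.cov r).1 (Or.inr (Or.inr hr))).2
  have hqA : q ∉ A := fun e => h.ab q e hq
  have hrA : r ∉ A := fun e => h.ac r e hr
  have hqC : q ∉ C := fun e => h.bc q hq e
  have hrB : r ∉ B := fun e => h.bc r e hr
  have hmemJ : ∀ (S : Finset ℕ) (x : ℕ), x ∈ del 1 (del q (del r S)) ↔ jot q r x ∈ S := by
    intro S x
    rw [mem_del, mem_del, mem_del]
    rfl
  have hpos : ∀ x, (jot q r x ∈ A ∨ jot q r x ∈ B ∨ jot q r x ∈ C) → 1 ≤ x := by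
    intro x hx
    rcases Nat.eq_zero_or_pos x with rfl | h0
    · rw [jot_zero hq1 hr1] at hx
      have := ((h.cov 0).1 hx).1
      omega
    · exact h0
  -- three disjoint parts of `tri A B C`
  set F1 := (tri A B C).filter (fun t => t.2.2 ≠ r ∧ (t.2.1 ≠ q ∨ r < t.1)) with hF1
  set F2 := (tri A B C).filter (fun t => t.2.2 = r) with hF2
  set F3 := (tri A B C).filter (fun t => t.2.2 ≠ r ∧ t.2.1 = q ∧ t.1 < r) with hF3
  have hF : F1.card + F2.card + F3.card ≤ (tri A B C).card := by
    rw [← Finset.card_union_of_disjoint, ← Finset.card_union_of_disjoint]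
    · apply Finset.card_le_card
      apply Finset.union_subset
      · exact Finset.union_subset (Finset.filter_subset _ _) (Finset.filter_subset _ _)
      · exact Finset.filter_subset _ _
    · rw [Finset.disjoint_left]
      intro t ht ht'
      simp only [hF1, hF2, hF3, Finset.mem_union, Finset.mem_filter] at ht ht'
      rcases ht with ht | ht
      · rcases ht.2.2 with h1 | h1
        · exact h1 ht'.2.2.1
        · have := ht'.2.2.2; omega
      · exact ht'.2.1 ht.2
    · rw [Finset.disjoint_left]
      intro t ht ht'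
      simp only [hF1, hF2, Finset.mem_filter] at ht ht'
      exact ht.2.1 ht'.2
  -- first part
  have hc1 : (tri (del 1 (del q (del r A))) (del 1 (del q (del r B)))
      (del 1 (del q (del r C)))).card ≤ F1.card := by
    apply Finset.card_le_card_of_injOn
      (fun t => (jot q r t.1, (if jot q r t.1 ≤ jot q r t.2.1 + jot q r t.2.2
        then jot q r t.2.1 else q), jot q r t.2.2))
    · intro t ht
      rw [Finset.mem_coe, mem_tri] at ht
      rw [Finset.mem_coe, hF1, Finset.mem_filter, mem_tri]
      obtain ⟨⟨h1, h2, h3⟩, h4, h5, h6⟩ := ht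
      rw [hmemJ] at h1 h2 h3
      have p1 := hpos _ (Or.inl h1)
      have p2 := hpos _ (Or.inr (Or.inl h2))
      have p3 := hpos _ (Or.inr (Or.inr h3))
      have m2 := hqm _ h2
      have m3 := hrm _ h3
      have n1 : jot q r t.1 ≠ r := fun e => hrA (e ▸ h1)
      have n1' : jot q r t.1 ≠ q := fun e => hqA (e ▸ h1)
      have j1 := jot_cases hqr p1
      have j2 := jot_cases hqr p2
      have j3 := jot_cases hqr p3
      simp only
      split_ifs with hc
      · refine ⟨⟨⟨h1, h2, h3⟩, hc, ?_, ?_⟩, ?_, Or.inl ?_⟩ <;> omega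
      · refine ⟨⟨⟨h1, hq, h3⟩, ?_, ?_, ?_⟩, ?_, Or.inr ?_⟩ <;> omega
    · intro t ht s hs hts
      rw [Finset.mem_coe, mem_tri] at ht hs
      simp only [Prod.mk.injEq] at hts
      obtain ⟨e1, e2, e3⟩ := hts
      have f1 := jot_inj q r e1
      have f3 := jot_inj q r e3
      have f2 : t.2.1 = s.2.1 := by
        obtain ⟨⟨t1, t2, t3⟩, t4, t5, t6⟩ := ht
        obtain ⟨⟨s1, s2, s3⟩, s4, s5, s6⟩ := hs
        rw [hmemJ] at t1 t2 t3 s1 s2 s3
        have p1 := hpos _ (Or.inl t1)
        have p2 := hpos _ (Or.inr (Or.inl t2))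
        have p3 := hpos _ (Or.inr (Or.inr t3))
        have p2' := hpos _ (Or.inr (Or.inl s2))
        have m2 := hqm _ t2
        have m2' := hqm _ s2
        have j1 := jot_cases hqr p1
        have j2 := jot_cases hqr p2
        have j2' := jot_cases hqr p2'
        have j3 := jot_cases hqr p3
        rw [← f1, ← f3] at s4 e2
        split_ifs at e2 with c1 c2 <;> omega
      exact Prod.ext f1 (Prod.ext f2 f3)
  -- second part
  have hc2 : ∑ a ∈ A, (B.filter (fun b => r ≤ a + b ∧ a ≤ b + r)).card ≤ F2.card := by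
    rw [← card_prod_filter A B (fun a b => r ≤ a + b ∧ a ≤ b + r)]
    apply Finset.card_le_card_of_injOn (fun t => (t.1, t.2, r))
    · intro t ht
      rw [Finset.mem_coe, Finset.mem_filter, Finset.mem_product] at ht
      rw [Finset.mem_coe, hF2, Finset.mem_filter, mem_tri]
      have := hqm _ ht.1.2
      exact ⟨⟨⟨ht.1.1, ht.1.2, hr⟩, ht.2.2, by simp only; omega, ht.2.1⟩, rfl⟩
    · intro t _ s _ hts
      simp only [Prod.mk.injEq] at hts
      exact Prod.ext hts.1 hts.2.1
  -- third part
  have hc3 : ∑ a ∈ A.filter (fun a => a < r), N2 q r C a ≤ F3.card := by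
    unfold N2
    rw [← card_prod_filter (A.filter (fun a => a < r)) C
      (fun a c => c ≠ r ∧ q ≤ a + c ∧ a ≤ q + c ∧ c ≤ q + a)]
    apply Finset.card_le_card_of_injOn (fun t => (t.1, q, t.2))
    · intro t ht
      rw [Finset.mem_coe, Finset.mem_filter, Finset.mem_product, Finset.mem_filter] at ht
      rw [Finset.mem_coe, hF3, Finset.mem_filter, mem_tri]
      obtain ⟨⟨⟨h1, h2⟩, h3⟩, h4, h5, h6, h7⟩ := ht
      exact ⟨⟨⟨h1, hq, h3⟩, h6, h5, by simp only; omega⟩, h4, rfl, h2⟩
    · intro t _ s _ hts
      simp only [Prod.mk.injEq] at hts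
      exact Prod.ext hts.1 hts.2.2
  -- the word before `r`
  set A0 := A.filter (fun a => a < r) with hA0
  have hpart0 : Part r A0 B C := by
    refine ⟨?_, ?_, ?_, h.bc⟩
    · intro x
      have := h.cov x
      simp only [hA0, Finset.mem_filter]
      constructor
      · rintro (⟨h1, h2⟩ | h1 | h1)
        · exact ⟨(this.1 (Or.inl h1)).1, by omega⟩
        · have := hqm _ h1
          exact ⟨((h.cov x).1 (Or.inr (Or.inl h1))).1, by omega⟩
        · have := hrm _ h1
          exact ⟨((h.cov x).1 (Or.inr (Or.inr h1))).1, by omega⟩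
      · rintro ⟨h1, h2⟩
        rcases this.2 ⟨h1, by omega⟩ with q1 | q1 | q1
        · left
          have : x ≠ r := fun e => hrA (e ▸ q1)
          exact ⟨q1, by omega⟩
        · exact Or.inr (Or.inl q1)
        · exact Or.inr (Or.inr q1)
    · intro x hx
      exact h.ab x (Finset.mem_filter.mp hx).1
    · intro x hx
      exact h.ac x (Finset.mem_filter.mp hx).1
  -- the tail
  have htail : A.filter (fun a => ¬ a < r) = (range (n - r)).image (fun t => r + 1 + t) := by
    ext x
    simp only [Finset.mem_filter, Finset.mem_image, Finset.mem_range]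
    constructor
    · rintro ⟨h1, h2⟩
      have h3 := ((h.cov x).1 (Or.inl h1)).2
      have h4 : x ≠ r := fun e => hrA (e ▸ h1)
      exact ⟨x - (r + 1), by omega, by omega⟩
    · rintro ⟨t, h1, rfl⟩
      refine ⟨?_, by omega⟩
      rcases (h.cov (r + 1 + t)).2 ⟨by omega, by omega⟩ with q1 | q1 | q1
      · exact q1
      · have := hqm _ q1; omega
      · have := hrm _ q1; omega
  have hinj : Function.Injective (fun t : ℕ => r + 1 + t) := by
    intro x y hxy
    simp only at hxy
    omega
  have hcardA : A0.card + (n - r) = k := by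
    rw [← hAc, ← Finset.card_filter_add_card_filter_not (s := A) (fun a => a < r), htail,
      Finset.card_image_of_injective _ hinj, Finset.card_range]
  have hfour := four hpart0 hr hq hqm hBc hCc (by omega)
  have hsum2 : ∑ a ∈ A0, N1 r B a + ∑ t ∈ range (n - r), (k - t) ≤
      ∑ a ∈ A, (B.filter (fun b => r ≤ a + b ∧ a ≤ b + r)).card := by
    rw [← Finset.sum_filter_add_sum_filter_not A (fun a => a < r), htail,
      Finset.sum_image (fun x _ y _ hxy => hinj hxy)]
    apply Nat.add_le_add
    · apply Finset.sum_le_sum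
      intro a ha
      rw [hA0, Finset.mem_filter] at ha
      unfold N1
      apply Finset.card_le_card
      intro b hb
      rw [Finset.mem_filter] at hb ⊢
      exact ⟨hb.1, hb.2, by omega⟩
    · apply Finset.sum_le_sum
      intro t _
      have h1 := cnt_add B t
      have h2 : cnt B t ≤ t := by
        unfold cnt
        calc _ ≤ (Finset.Icc 1 t).card := by
              apply Finset.card_le_card
              intro b hb
              rw [Finset.mem_filter] at hb
              rw [Finset.mem_Icc]
              exact ⟨((h.cov b).1 (Or.inr (Or.inl hb.1))).1, hb.2⟩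
          _ = t := by simp
      have h3 : (B.filter (fun x => t < x)).card ≤
          (B.filter (fun b => r ≤ r + 1 + t + b ∧ r + 1 + t ≤ b + r)).card := by
        apply Finset.card_le_card
        intro b hb
        rw [Finset.mem_filter] at hb ⊢
        exact ⟨hb.1, by omega, by omega⟩
      omega
  have htr := sum_triangle k (n - r)
  have hkm : k - (n - r) = A0.card := by omega
  rw [hkm] at htr
  rw [Finset.sum_add_distrib] at hfour
  -- assemble
  have := hc1
  have := hc2
  have := hc3
  have := hF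
  omega

end Pool.Agent.Work.MP_21c964_co
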